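import Pool.Agent.LibKB.Loc

/-!
THEOREM K, part B1b: basic facts about divisors, classes, sections and germs on a `PreSurf`.
-/

set_option autoImplicit false

open Pool.Agent.LibGMM Pool.Agent.LibK

namespace Pool.Agent.LibKB

variable {L : Type} [Field L] [Algebra ℂ L]

/-! ### Orders -/

theorem ord_one (ν : DVal L) : ν.ord 1 = 0 := by
  have h := ν.ord_const 1
  rwa [map_one] at h

theorem ord_inv (ν : DVal L) {f : L} (hf : f ≠ 0) : ν.ord f⁻¹ = - ν.ord f := by
  have h := ν.ord_mul f f⁻¹ hf (inv_ne_zero hf)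
  rw [mul_inv_cancel₀ hf, ord_one] at h
  omega

theorem ord_div (ν : DVal L) {f g : L} (hf : f ≠ 0) (hg : g ≠ 0) :
    ν.ord (f / g) = ν.ord f - ν.ord g := by
  rw [div_eq_mul_inv, ν.ord_mul _ _ hf (inv_ne_zero hg), ord_inv ν hg]
  ring

theorem ord_pow (ν : DVal L) {f : L} (hf : f ≠ 0) (k : ℕ) : ν.ord (f ^ k) = k * ν.ord f := by
  induction k with
  | zero => simp [ord_one]
  | succ k ih =>
    rw [pow_succ, ν.ord_mul _ _ (pow_ne_zero _ hf) hf, ih]
    push_cast
    ring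

theorem ord_zpow (ν : DVal L) {f : L} (hf : f ≠ 0) (k : ℤ) : ν.ord (f ^ k) = k * ν.ord f := by
  cases k with
  | ofNat k => simpa using ord_pow ν hf k
  | negSucc k =>
    rw [zpow_negSucc, ord_inv ν (pow_ne_zero _ hf), ord_pow ν hf, Int.negSucc_eq]
    push_cast
    ring

theorem Ge.mono {E : DVal L} {k l : ℤ} {f : L} (h : Ge E k f) (hl : l ≤ k) : Ge E l f :=
  fun h0 => le_trans hl (h h0)

theorem Ge.add {E : DVal L} {k : ℤ} {f g : L} (hf : Ge E k f) (hg : Ge E k g) : Ge E k (f + g) :=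
  (geSub E k).add_mem hf hg

theorem Ge.neg {E : DVal L} {k : ℤ} {f : L} (hf : Ge E k f) : Ge E k (-f) :=
  (geSub E k).neg_mem hf

theorem Ge.sub {E : DVal L} {k : ℤ} {f g : L} (hf : Ge E k f) (hg : Ge E k g) : Ge E k (f - g) :=
  (geSub E k).sub_mem hf hg

theorem Ge.smul {E : DVal L} {k : ℤ} {f : L} (c : ℂ) (hf : Ge E k f) : Ge E k (c • f) :=
  (geSub E k).smul_mem c hf

theorem Ge.mul {E : DVal L} {k l : ℤ} {f g : L} (hf : Ge E k f) (hg : Ge E l g) :
    Ge E (k + l) (f * g) := by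
  intro h
  have h1 := hf (left_ne_zero_of_mul h)
  have h2 := hg (right_ne_zero_of_mul h)
  rw [E.ord_mul _ _ (left_ne_zero_of_mul h) (right_ne_zero_of_mul h)]
  omega

/-- If `g` has larger order than `f` then `f + g` has the same order as `f`. -/
theorem ord_add_of_ge (E : DVal L) {f g : L} (hf : f ≠ 0) (hg : Ge E (E.ord f + 1) g) :
    f + g ≠ 0 ∧ E.ord (f + g) = E.ord f := by
  have h1 : f + g ≠ 0 := by
    intro h
    have h2 : g = -f := by linear_combination h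
    have h3 : Ge E (E.ord f + 1) f := by
      have h4 := hg.neg
      rw [h2, neg_neg] at h4
      exact h4
    have := h3 hf
    omega
  refine ⟨h1, ?_⟩
  by_cases hg0 : g = 0
  · rw [hg0, add_zero]
  have h2 := E.ord_add f g hf hg0 h1
  have h3 := hg hg0
  have h4 : E.ord f ≤ E.ord (f + g) := by
    rw [min_eq_left (by omega)] at h2
    exact h2
  by_contra hne
  have h5 : E.ord f + 1 ≤ E.ord (f + g) := by omega
  have h6 : Ge E (E.ord f + 1) (f + g - g) := Ge.sub (fun _ => h5) hg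
  rw [add_sub_cancel_right] at h6
  have := h6 hf
  omega

/-! ### Divisors and classes -/

section

variable {P : Set (DVal L)} {n : ℕ} {cls : DVal L → Fin (n + 1) → ℤ} {D D' : DVal L → ℤ}

theorem IsDiv.congr (hD : IsDiv P D) (h : ∀ ν ∈ P, D ν = D' ν) : IsDiv P D' := by
  refine hD.subset ?_
  rintro ν ⟨h1, h2⟩
  exact ⟨h1, by rwa [h ν h1]⟩

theorem IsDiv.add (hD : IsDiv P D) (hD' : IsDiv P D') : IsDiv P (fun ν => D ν + D' ν) := by
  refine (hD.union hD').subset ?_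
  rintro ν ⟨h1, h2⟩
  by_cases h3 : D ν = 0
  · exact Or.inr ⟨h1, fun h4 => h2 (by simp [h3, h4])⟩
  · exact Or.inl ⟨h1, h3⟩

theorem IsDiv.zsmul (k : ℤ) (hD : IsDiv P D) : IsDiv P (fun ν => k * D ν) := by
  refine hD.subset ?_
  rintro ν ⟨h1, h2⟩
  exact ⟨h1, fun h3 => h2 (by simp [h3])⟩

theorem IsDiv.neg (hD : IsDiv P D) : IsDiv P (fun ν => - D ν) := by
  refine hD.subset ?_
  rintro ν ⟨h1, h2⟩
  exact ⟨h1, fun h3 => h2 (by simp [h3])⟩

theorem isDiv_zero : IsDiv P (fun _ => 0) := by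
  refine Set.finite_empty.subset ?_
  rintro ν ⟨_, h2⟩
  exact absurd rfl h2

/-- The divisor of a prime. -/
noncomputable def prd (ν : DVal L) : DVal L → ℤ := by
  classical
  exact fun μ => if μ = ν then 1 else 0

theorem prd_self (ν : DVal L) : prd ν ν = 1 := by simp [prd]

theorem prd_ne {ν μ : DVal L} (h : μ ≠ ν) : prd ν μ = 0 := by simp [prd, h]

theorem prd_nonneg (ν μ : DVal L) : 0 ≤ prd ν μ := by
  unfold prd
  split_ifs <;> norm_num

theorem isDiv_prd (ν : DVal L) : IsDiv P (prd ν) := by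
  refine (Set.finite_singleton ν).subset ?_
  rintro μ ⟨_, h2⟩
  by_contra h3
  exact h2 (prd_ne h3)

theorem isDiv_ord (h : FinDiv P) {f : L} (hf : f ≠ 0) : IsDiv P (fun ν => ν.ord f) := h f hf

theorem clOf_congr (h : ∀ ν ∈ P, D ν = D' ν) : clOf P cls D = clOf P cls D' := by
  unfold clOf
  exact finsum_mem_congr rfl fun ν hν => by rw [h ν hν]

theorem clOf_supp (hD : IsDiv P D) : (P ∩ Function.support fun ν => D ν • cls ν).Finite := by
  refine hD.subset ?_
  rintro ν ⟨h1, h2⟩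
  refine ⟨h1, fun h3 => h2 ?_⟩
  simp [h3]

theorem clOf_add (hD : IsDiv P D) (hD' : IsDiv P D') :
    clOf P cls (fun ν => D ν + D' ν) = clOf P cls D + clOf P cls D' := by
  unfold clOf
  rw [← finsum_mem_add_distrib' (clOf_supp hD) (clOf_supp hD')]
  exact finsum_mem_congr rfl fun ν _ => add_smul _ _ _

theorem clOf_zsmul (k : ℤ) (hD : IsDiv P D) :
    clOf P cls (fun ν => k * D ν) = k • clOf P cls D := by
  unfold clOf
  rw [finsum_mem_eq_sum _ (clOf_supp hD), Finset.smul_sum,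
    finsum_mem_eq_sum_of_subset (t := (clOf_supp (cls := cls) hD).toFinset)]
  · exact Finset.sum_congr rfl fun ν _ => mul_smul _ _ _
  · intro ν hν
    rw [Set.Finite.coe_toFinset]
    refine ⟨hν.1, fun h => hν.2 ?_⟩
    change (k * D ν) • cls ν = 0
    rw [mul_smul]
    change D ν • cls ν = 0 at h
    rw [h, smul_zero]
  · intro ν hν
    rw [Set.Finite.coe_toFinset] at hν
    exact hν.1

theorem clOf_neg (hD : IsDiv P D) : clOf P cls (fun ν => - D ν) = - clOf P cls D := by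
  have h := clOf_zsmul (cls := cls) (-1) hD
  simpa using h

theorem clOf_prd {ν : DVal L} (hν : ν ∈ P) : clOf P cls (prd ν) = cls ν := by
  classical
  unfold clOf
  rw [finsum_mem_eq_sum_of_subset (t := {ν}), Finset.sum_singleton]
  · simp [prd]
  · intro μ hμ
    by_contra h
    apply hμ.2
    have h1 : μ ≠ ν := by simpa using h
    change prd ν μ • cls μ = 0
    simp [prd, h1]
  · intro μ hμ
    have h1 : μ = ν := by simpa using hμ
    rw [h1]
    exact hν

/-- Adding one prime divisor to the set of primes. -/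
theorem clOf_insert {E : DVal L} (hE : E ∉ P) (hD : IsDiv P D) :
    clOf (insert E P) cls D = D E • cls E + clOf P cls D := by
  unfold clOf
  rw [finsum_mem_insert' _ hE (clOf_supp hD)]

theorem sec_congr (h : ∀ ν ∈ P, D ν = D' ν) : sec P D = sec P D' := by
  ext f
  constructor
  · intro hf ν hν h0
    rw [← h ν hν]
    exact hf ν hν h0
  · intro hf ν hν h0
    rw [h ν hν]
    exact hf ν hν h0

theorem sec_mono (h : ∀ ν ∈ P, D ν ≤ D' ν) : sec P D ≤ sec P D' := by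
  intro f hf ν hν h0
  have := hf ν hν h0
  have := h ν hν
  omega

theorem sec_mul {f g : L} (hf : f ∈ sec P D) (hg : g ∈ sec P D') :
    f * g ∈ sec P (fun ν => D ν + D' ν) := by
  intro ν hν h
  have h1 := hf ν hν (left_ne_zero_of_mul h)
  have h2 := hg ν hν (right_ne_zero_of_mul h)
  rw [ν.ord_mul _ _ (left_ne_zero_of_mul h) (right_ne_zero_of_mul h)]
  change 0 ≤ _ + (D ν + D' ν)
  omega

theorem sec_div {f g : L} (hg : g ≠ 0) (hf : f ∈ sec P D) :
    f / g ∈ sec P (fun ν => D ν + ν.ord g) := by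
  intro ν hν h
  have h0 : f ≠ 0 := by
    rintro rfl
    simp at h
  have h1 := hf ν hν h0
  rw [ord_div ν h0 hg]
  change 0 ≤ _ + (D ν + ν.ord g)
  omega

theorem h0_congr (h : ∀ ν ∈ P, D ν = D' ν) : h0 P D = h0 P D' := by
  unfold h0
  rw [sec_congr h]

/-- Linearly equivalent divisors have the same number of sections. -/
theorem h0_lin {g : L} (hg : g ≠ 0) (h : ∀ ν ∈ P, D' ν = D ν + ν.ord g) : h0 P D' = h0 P D := by
  have h1 : sec P D = (sec P D').map (LinearMap.mulLeft ℂ g) := by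
    ext f
    rw [Submodule.mem_map]
    constructor
    · intro hf
      refine ⟨f / g, ?_, ?_⟩
      · intro ν hν h0
        have hf0 : f ≠ 0 := by
          rintro rfl
          simp at h0
        have h2 := hf ν hν hf0
        have h3 := ν.ord_mul (f / g) g h0 hg
        rw [div_mul_cancel₀ _ hg] at h3
        have h4 := h ν hν
        omega
      · rw [LinearMap.mulLeft_apply]
        field_simp
    · rintro ⟨u, hu, rfl⟩ ν hν h0
      rw [LinearMap.mulLeft_apply] at h0 ⊢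
      have hu0 : u ≠ 0 := right_ne_zero_of_mul h0
      have h2 := hu ν hν hu0
      have h4 := h ν hν
      rw [ν.ord_mul _ _ hg hu0]
      omega
  unfold h0
  rw [h1]
  exact (Submodule.equivMapOfInjective _ (fun u v h => mul_left_cancel₀ hg h) (sec P D')).finrank_eq

theorem sec_insert (E : DVal L) : sec (insert E P) D = sec P D ⊓ geSub E (- D E) := by
  ext f
  constructor
  · intro hf
    refine ⟨fun ν hν h0 => hf ν (Set.mem_insert_of_mem _ hν) h0, fun h0 => ?_⟩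
    have := hf E (Set.mem_insert _ _) h0
    omega
  · rintro ⟨h1, h2⟩ ν hν h0
    rcases hν with rfl | hν
    · have := h2 h0
      omega
    · exact h1 ν hν h0

theorem Gen.mul {x : Subalgebra ℂ L} {f g : L} (hf : Gen P x D f) (hg : Gen P x D' g) :
    Gen P x (fun ν => D ν + D' ν) (f * g) := by
  refine ⟨sec_mul hf.1 hg.1, mul_ne_zero hf.2.1 hg.2.1, fun ν hν hx => ?_⟩
  rw [ν.ord_mul _ _ hf.2.1 hg.2.1]
  have h1 := hf.2.2 ν hν hx
  have h2 := hg.2.2 ν hν hx
  change _ + (D ν + D' ν) = 0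
  omega

theorem Gen.div {x : Subalgebra ℂ L} {f g : L} (hf : Gen P x D f) (hg : g ≠ 0) :
    Gen P x (fun ν => D ν + ν.ord g) (f / g) := by
  refine ⟨sec_div hg hf.1, div_ne_zero hf.2.1 hg, fun ν hν hx => ?_⟩
  rw [ord_div ν hf.2.1 hg]
  have h1 := hf.2.2 ν hν hx
  change _ + (D ν + ν.ord g) = 0
  omega

theorem Gen.congr {x : Subalgebra ℂ L} {f : L} (hf : Gen P x D f) (h : ∀ ν ∈ P, D ν = D' ν) :
    Gen P x D' f := by
  refine ⟨?_, hf.2.1, fun ν hν hx => ?_⟩
  · rw [← sec_congr h]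
    exact hf.1
  · rw [← h ν hν]
    exact hf.2.2 ν hν hx

theorem LocEqn.congr {x : Subalgebra ℂ L} {g : L} (hg : LocEqn P x D g)
    (h : ∀ ν ∈ P, D ν = D' ν) : LocEqn P x D' g :=
  ⟨hg.1, fun ν hν hx => by rw [hg.2 ν hν hx, h ν hν]⟩

theorem LocEqn.add {x : Subalgebra ℂ L} {g g' : L} (hg : LocEqn P x D g)
    (hg' : LocEqn P x D' g') : LocEqn P x (fun ν => D ν + D' ν) (g * g') :=
  ⟨mul_ne_zero hg.1 hg'.1, fun ν hν hx => by
    rw [ν.ord_mul _ _ hg.1 hg'.1, hg.2 ν hν hx, hg'.2 ν hν hx]⟩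

theorem LocEqn.zsmul {x : Subalgebra ℂ L} {g : L} (k : ℤ) (hg : LocEqn P x D g) :
    LocEqn P x (fun ν => k * D ν) (g ^ k) :=
  ⟨zpow_ne_zero _ hg.1, fun ν hν hx => by rw [ord_zpow ν hg.1, hg.2 ν hν hx]⟩

theorem LocEqn.ord {x : Subalgebra ℂ L} {g : L} (hg : g ≠ 0) :
    LocEqn P x (fun ν => ν.ord g) g := ⟨hg, fun _ _ _ => rfl⟩

end

/-! ### The lattice -/

section

variable {n : ℕ}

theorem frm_comm (u v : Fin (n + 1) → ℤ) : frm u v = frm v u := by
  unfold frm
  rw [mul_comm]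
  congr 1
  exact Finset.sum_congr rfl fun i _ => mul_comm _ _

theorem frm_add_left (u u' v : Fin (n + 1) → ℤ) : frm (u + u') v = frm u v + frm u' v := by
  simp only [frm, Pi.add_apply, add_mul, Finset.sum_add_distrib]
  ring

theorem frm_smul_left (k : ℤ) (u v : Fin (n + 1) → ℤ) : frm (k • u) v = k * frm u v := by
  simp only [frm, Pi.smul_apply, smul_eq_mul, mul_sub, Finset.mul_sum, mul_assoc]

theorem frm_neg_left (u v : Fin (n + 1) → ℤ) : frm (-u) v = - frm u v := by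
  have := frm_smul_left (-1) u v
  simpa using this

theorem frm_sub_left (u u' v : Fin (n + 1) → ℤ) : frm (u - u') v = frm u v - frm u' v := by
  rw [sub_eq_add_neg, frm_add_left, frm_neg_left]
  ring

theorem frm_add_right (u v v' : Fin (n + 1) → ℤ) : frm u (v + v') = frm u v + frm u v' := by
  rw [frm_comm, frm_add_left, frm_comm v, frm_comm v']

theorem frm_smul_right (k : ℤ) (u v : Fin (n + 1) → ℤ) : frm u (k • v) = k * frm u v := by
  rw [frm_comm, frm_smul_left, frm_comm]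

theorem frm_neg_right (u v : Fin (n + 1) → ℤ) : frm u (-v) = - frm u v := by
  rw [frm_comm, frm_neg_left, frm_comm]

theorem frm_sub_right (u v v' : Fin (n + 1) → ℤ) : frm u (v - v') = frm u v - frm u v' := by
  rw [frm_comm, frm_sub_left, frm_comm v, frm_comm v']

/-- `(u, j)`: the class `π* u + j E` of the blow-up. -/
def sn (u : Fin (n + 1) → ℤ) (j : ℤ) : Fin (n + 1 + 1) → ℤ := Fin.snoc (α := fun _ => ℤ) u j

theorem sn_castSucc (u : Fin (n + 1) → ℤ) (j : ℤ) (i : Fin (n + 1)) :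
    sn u j i.castSucc = u i := by simp [sn]

theorem sn_last (u : Fin (n + 1) → ℤ) (j : ℤ) : sn u j (Fin.last (n + 1)) = j := by simp [sn]

theorem sn_zero (u : Fin (n + 1) → ℤ) (j : ℤ) : sn u j 0 = u 0 := sn_castSucc u j 0

theorem sn_add (u v : Fin (n + 1) → ℤ) (j k : ℤ) : sn u j + sn v k = sn (u + v) (j + k) := by
  funext i
  refine Fin.lastCases ?_ (fun i => ?_) i
  · simp only [Pi.add_apply, sn_last]
  · simp only [Pi.add_apply, sn_castSucc]

theorem sn_sub (u v : Fin (n + 1) → ℤ) (j k : ℤ) : sn u j - sn v k = sn (u - v) (j - k) := by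
  funext i
  refine Fin.lastCases ?_ (fun i => ?_) i
  · simp only [Pi.sub_apply, sn_last]
  · simp only [Pi.sub_apply, sn_castSucc]

theorem smul_sn (k : ℤ) (u : Fin (n + 1) → ℤ) (j : ℤ) : k • sn u j = sn (k • u) (k * j) := by
  funext i
  refine Fin.lastCases ?_ (fun i => ?_) i
  · simp only [Pi.smul_apply, sn_last, smul_eq_mul]
  · simp only [Pi.smul_apply, sn_castSucc]

theorem sn_inj {u v : Fin (n + 1) → ℤ} {j k : ℤ} (h : sn u j = sn v k) : u = v ∧ j = k := by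
  constructor
  · funext i
    have := congrFun h i.castSucc
    rwa [sn_castSucc, sn_castSucc] at this
  · have := congrFun h (Fin.last (n + 1))
    rwa [sn_last, sn_last] at this

theorem exists_sn (w : Fin (n + 1 + 1) → ℤ) : ∃ u j, w = sn u j := by
  refine ⟨fun i => w i.castSucc, w (Fin.last (n + 1)), ?_⟩
  funext i
  refine Fin.lastCases ?_ (fun i => ?_) i
  · rw [sn_last]
  · rw [sn_castSucc]

theorem frm_sn (u v : Fin (n + 1) → ℤ) (j k : ℤ) : frm (sn u j) (sn v k) = frm u v - j * k := by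
  unfold frm
  rw [Fin.sum_univ_castSucc]
  have h1 : ∀ (w : Fin (n + 1) → ℤ) (l : ℤ) (i : Fin n), sn w l (i.castSucc).succ = w i.succ := by
    intro w l i
    rw [← Fin.castSucc_succ, sn_castSucc]
  have h2 : ∀ (w : Fin (n + 1) → ℤ) (l : ℤ), sn w l (Fin.last n).succ = l := by
    intro w l
    rw [Fin.succ_last, sn_last]
  simp only [h1, h2, sn_zero]
  ring

theorem Kc_succ (n : ℕ) : Kc (n + 1) = sn (Kc n) 1 := by
  funext i
  refine Fin.lastCases ?_ (fun i => ?_) i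
  · rw [sn_last, ← Fin.succ_last]
    simp [Kc]
  · rw [sn_castSucc]
    refine Fin.cases ?_ (fun i => ?_) i
    · simp [Kc]
    · rw [Fin.castSucc_succ]
      simp [Kc]

end

/-! ### Linear equivalence on a surface -/

namespace PreSurf

variable (S : PreSurf L)

/-- The class of a divisor. -/
noncomputable def cl (D : DVal L → ℤ) : Fin (S.n + 1) → ℤ := clOf S.prm S.cls D

variable {S} {D D' : DVal L → ℤ}

theorem exists_lin (hD : IsDiv S.prm D) (hD' : IsDiv S.prm D') (h : S.cl D' = S.cl D) :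
    ∃ g : L, g ≠ 0 ∧ ∀ ν ∈ S.prm, D' ν = D ν + ν.ord g := by
  have h1 : clOf S.prm S.cls (fun ν => D' ν + - D ν) = 0 := by
    rw [clOf_add hD' hD.neg, clOf_neg hD]
    change S.cl D' + - S.cl D = 0
    rw [h]
    exact add_neg_cancel _
  obtain ⟨g, hg, h2⟩ := S.ex_div _ (hD'.add hD.neg) h1
  exact ⟨g, hg, fun ν hν => by rw [h2 ν hν]; ring⟩

theorem h0_eq (hD : IsDiv S.prm D) (hD' : IsDiv S.prm D') (h : S.cl D' = S.cl D) :
    h0 S.prm D' = h0 S.prm D := by
  obtain ⟨g, hg, h1⟩ := exists_lin hD hD' h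
  exact h0_lin hg h1

variable (S)

/-- A divisor in a given class. -/
noncomputable def rep (α : Fin (S.n + 1) → ℤ) : DVal L → ℤ := (S.cl_surj α).choose

theorem isDiv_rep (α : Fin (S.n + 1) → ℤ) : IsDiv S.prm (S.rep α) := (S.cl_surj α).choose_spec.1

theorem cl_rep (α : Fin (S.n + 1) → ℤ) : S.cl (S.rep α) = α := (S.cl_surj α).choose_spec.2

/-- The number of sections of a class. -/
noncomputable def hh (α : Fin (S.n + 1) → ℤ) : ℕ := h0 S.prm (S.rep α)

variable {S}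

theorem hh_cl (hD : IsDiv S.prm D) : S.hh (S.cl D) = h0 S.prm D :=
  h0_eq hD (S.isDiv_rep _) (S.cl_rep _)

theorem rr' (α : Fin (S.n + 1) → ℤ) :
    2 + frm α (α - Kc S.n) ≤ 2 * ((S.hh α : ℤ) + S.hh (Kc S.n - α)) := by
  have h := S.rr (S.rep α) (S.rep (Kc S.n - α)) (S.isDiv_rep _) (S.isDiv_rep _) (by
    change S.cl _ = Kc S.n - S.cl _
    rw [S.cl_rep, S.cl_rep])
  change 2 + frm (S.cl _) (S.cl _ - Kc S.n) ≤ _ at h
  rw [S.cl_rep] at h
  exact h

/-- Decomposition of a divisor of class `k α + β`. -/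
theorem exists_decomp (k : ℤ) {DA DF : DVal L → ℤ} (hD : IsDiv S.prm D) (hA : IsDiv S.prm DA)
    (hF : IsDiv S.prm DF) (h : S.cl D = k • S.cl DA + S.cl DF) :
    ∃ g : L, g ≠ 0 ∧ ∀ ν ∈ S.prm, D ν = k * DA ν + DF ν + ν.ord g := by
  refine exists_lin ((hA.zsmul k).add hF) hD ?_
  rw [h]
  change _ = clOf _ _ _
  rw [clOf_add (hA.zsmul k) hF, clOf_zsmul k hA]
  rfl

end PreSurf

/-! ### Germs -/

/-- `x` is a closed point of the surface with set of prime divisors `P`. -/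
structure Pt (P : Set (DVal L)) (x : Subalgebra ℂ L) : Prop where
  coord : ∃ a b, Coord x a b
  ess : ∀ ν, ν ∈ Ess x ↔ ν ∈ P ∧ x ≤ ν.ring

theorem PreSurf.pt (S : PreSurf L) {x : Subalgebra ℂ L} (hx : x ∈ S.pts) : Pt S.prm x :=
  ⟨S.coord x hx, S.ess x hx⟩

/-- A unit of `x` has order zero along the valuations which are `≥ 0` on `x`. -/
theorem ord_eq_zero_of_unit {x : Subalgebra ℂ L} {f : L} (hf : f ∈ x) (h0 : f ≠ 0)
    (hf' : f⁻¹ ∈ x) {ν : DVal L} (hν : x ≤ ν.ring) : ν.ord f = 0 := by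
  have h1 : 0 ≤ ν.ord f := hν hf
  have h2 : 0 ≤ ν.ord f⁻¹ := hν hf'
  rw [ord_inv ν h0] at h2
  omega

namespace Pt

variable {P : Set (DVal L)} {x : Subalgebra ℂ L} {E : DVal L} {f g g' : L} {D D' : DVal L → ℤ}

theorem isDiv_ess (hx : Pt P x) (hD : IsDiv P D) : {ν | ν ∈ Ess x ∧ D ν ≠ 0}.Finite := by
  refine hD.subset ?_
  rintro ν ⟨h1, h2⟩
  exact ⟨((hx.ess ν).1 h1).1, h2⟩

theorem exists_loc (hx : Pt P x) (hD : IsDiv P D) : ∃ g, LocEqn P x D g := by
  obtain ⟨a, b, hab⟩ := hx.coord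
  obtain ⟨g, hg, h1⟩ := hab.factorial D (hx.isDiv_ess hD)
  exact ⟨g, hg, fun ν hν hxν => h1 ν ((hx.ess ν).2 ⟨hν, hxν⟩)⟩

theorem exists_ord (hx : Pt P x) : ∃ E, IsOrd x E := by
  obtain ⟨a, b, hab⟩ := hx.coord
  exact hab.exists_ord

theorem mem_iff (hx : Pt P x) : f ∈ x ↔ ∀ ν ∈ P, x ≤ ν.ring → 0 ≤ ν.ord f := by
  obtain ⟨a, b, hab⟩ := hx.coord
  rw [hab.mem_iff]
  constructor
  · intro h ν hν hxν
    exact h ν ((hx.ess ν).2 ⟨hν, hxν⟩)
  · intro h ν hν
    have h1 := (hx.ess ν).1 hν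
    exact h ν h1.1 h1.2

/-- The germ at `x` of a section. -/
theorem germ_mem (hx : Pt P x) (hg : LocEqn P x D g) (hf : f ∈ sec P D) : f * g ∈ x := by
  rw [hx.mem_iff]
  intro ν hν hxν
  by_cases h0 : f = 0
  · rw [h0, zero_mul, ν.ord_zero]
  rw [ν.ord_mul _ _ h0 hg.1, hg.2 ν hν hxν]
  exact hf ν hν h0

theorem ord_zero_of_gen (hx : Pt P x) (hg : LocEqn P x D g) (h : Gen P x D f) {E : DVal L}
    (hE : x ≤ E.ring) : E.ord (f * g) = 0 := by
  have h2 : f * g ≠ 0 := mul_ne_zero h.2.1 hg.1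
  refine ord_eq_zero_of_unit (hx.germ_mem hg h.1) h2 ?_ hE
  rw [hx.mem_iff]
  intro ν hν hxν
  rw [ord_inv ν h2, ν.ord_mul _ _ h.2.1 hg.1, hg.2 ν hν hxν, h.2.2 ν hν hxν, neg_zero]

theorem gen_iff (hx : Pt P x) (hE : IsOrd x E) (hg : LocEqn P x D g)
    (hf : f ∈ sec P D) (h0 : f ≠ 0) : Gen P x D f ↔ E.ord (f * g) = 0 := by
  constructor
  · intro h
    exact hx.ord_zero_of_gen hg h hE.le_ring
  · intro h
    refine ⟨hf, h0, fun ν hν hxν => ?_⟩
    have h1 := hx.germ_mem hg hf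
    have h2 : f * g ≠ 0 := mul_ne_zero h0 hg.1
    have h3 := ord_eq_zero_of_unit h1 h2 (hE.inv_mem h1 h2 h) hxν
    rwa [ν.ord_mul _ _ h0 hg.1, hg.2 ν hν hxν] at h3

theorem pos_of_not_gen (hx : Pt P x) (hE : IsOrd x E) (hg : LocEqn P x D g)
    (hf : f ∈ sec P D) (h : ¬ Gen P x D f) : Ge E 1 (f * g) := by
  intro h1
  have h0 : f ≠ 0 := left_ne_zero_of_mul h1
  have h2 : 0 ≤ E.ord (f * g) := hE.le_ring (hx.germ_mem hg hf)
  have h3 : E.ord (f * g) ≠ 0 := fun h4 => h ((hx.gen_iff hE hg hf h0).2 h4)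
  omega

theorem not_gen_of_pos (hx : Pt P x) (hE : IsOrd x E) (hg : LocEqn P x D g)
    (h : Ge E 1 (f * g)) : ¬ Gen P x D f := by
  intro h1
  have h2 := (hx.gen_iff hE hg h1.1 h1.2.1).1 h1
  have h3 := h (mul_ne_zero h1.2.1 hg.1)
  omega

/-- The quotient of two local equations is a unit. -/
theorem loc_div_mem (hx : Pt P x) (hg : LocEqn P x D g) (hg' : LocEqn P x D g') :
    g / g' ∈ x := by
  rw [hx.mem_iff]
  intro ν hν hxν
  rw [ord_div ν hg.1 hg'.1, hg.2 ν hν hxν, hg'.2 ν hν hxν, sub_self]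

theorem loc_unique (hx : Pt P x) (hE : x ≤ E.ring) (hg : LocEqn P x D g)
    (hg' : LocEqn P x D g') : E.ord g = E.ord g' := by
  have h2 := ord_eq_zero_of_unit (hx.loc_div_mem hg hg') (div_ne_zero hg.1 hg'.1)
    (by rw [inv_div]; exact hx.loc_div_mem hg' hg) hE
  rw [ord_div E hg.1 hg'.1] at h2
  omega

end Pt

namespace PreSurf

/-- The centre, weak form: every valuation ring contains the local ring of a closed point. -/
theorem exists_le (S : PreSurf L) (V : ValuationSubring L) (hV : ∀ c : ℂ, algebraMap ℂ L c ∈ V) :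
    ∃ x ∈ S.pts, ∀ f ∈ x, f ∈ V := by
  by_cases h : V = ⊤
  · obtain ⟨x, hx⟩ := S.ptsNe
    exact ⟨x, hx, fun f _ => by rw [h]; exact ValuationSubring.mem_top f⟩
  · rcases S.centre V hV h with ⟨x, hx, h1⟩ | ⟨ν, hν, h1⟩
    · exact ⟨x, hx, h1.1⟩
    · obtain ⟨x, hx1, hx2⟩ := (S.infPts ν hν).nonempty
      exact ⟨x, hx1, fun f hf => (h1 f).2 (hx2 hf)⟩

end PreSurf

end Pool.Agent.LibKB
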