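import Pool.Agent.LibKB.Blow

/-!
THEOREM K, part B1b: divisors as finitely supported functions on the subtype of prime divisors, and
the statement `CurveFacts` of part B2.
-/

set_option autoImplicit false

open Pool.Agent.LibGMM Pool.Agent.LibK

namespace Pool.Agent.LibKB

variable {L : Type} [Field L] [Algebra ℂ L]

/-- The facts on curves (part B2). -/
def CurveFacts (S : PreSurf L) : Prop :=
  ∀ ν ∈ S.prm, 1 ≤ frm S.A (S.cls ν) ∧
    (∀ D, IsDiv S.prm D → frm (S.cl D) (S.cls ν) < 0 →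
      h0 S.prm D = h0 S.prm (fun μ => D μ - prd ν μ)) ∧
    (∀ D, IsDiv S.prm D → 0 ≤ frm (S.cl D) (S.cls ν) →
      (h0 S.prm D : ℤ) ≤ h0 S.prm (fun μ => D μ - prd ν μ) + frm (S.cl D) (S.cls ν) + 1) ∧
    0 ≤ 2 + frm (S.cls ν) (S.cls ν) + frm (Kc S.n) (S.cls ν) ∧
    (∃ c₀ : ℤ, ∀ D, IsDiv S.prm D → c₀ ≤ frm (S.cl D) (S.cls ν) →
      2 * (h0 S.prm D : ℤ) ≤ 2 * h0 S.prm (fun μ => D μ - prd ν μ) +
        2 * frm (S.cl D) (S.cls ν) - frm (S.cls ν) (S.cls ν) - frm (Kc S.n) (S.cls ν)) ∧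
    ∀ μ ∈ S.prm, μ ≠ ν → 0 ≤ frm (S.cls μ) (S.cls ν)

section

variable {P : Set (DVal L)}

/-- Extension by zero. -/
noncomputable def ext (D : P →₀ ℤ) : DVal L → ℤ := by
  classical
  exact fun ν => if h : ν ∈ P then D ⟨ν, h⟩ else 0

theorem ext_apply (D : P →₀ ℤ) (ν : P) : ext D ν.1 = D ν := by
  unfold ext
  rw [dif_pos ν.2]

theorem isDiv_ext (D : P →₀ ℤ) : IsDiv P (ext D) := by
  classical
  refine (D.support.finite_toSet.image Subtype.val).subset ?_
  rintro ν ⟨h1, h2⟩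
  refine ⟨⟨ν, h1⟩, ?_, rfl⟩
  have h3 := ext_apply D ⟨ν, h1⟩
  rw [Finset.mem_coe, Finsupp.mem_support_iff]
  intro h4
  apply h2
  rw [← h4]
  exact h3

theorem secD_eq (D : P →₀ ℤ) : secD P D = sec P (ext D) := by
  ext f
  constructor
  · intro hf ν hν h0
    have h1 := hf ⟨ν, hν⟩ h0
    rw [← ext_apply D ⟨ν, hν⟩] at h1
    exact h1
  · intro hf ν h0
    have h1 := hf ν.1 ν.2 h0
    rw [ext_apply] at h1
    exact h1

theorem genAt_iff {x : Subalgebra ℂ L} {D : P →₀ ℤ} {f : L} :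
    GenAt P x D f ↔ Gen P x (ext D) f := by
  unfold GenAt Gen
  rw [secD_eq]
  refine and_congr Iff.rfl (and_congr Iff.rfl ?_)
  constructor
  · intro h ν hν hx
    have h1 := h ⟨ν, hν⟩ hx
    rw [← ext_apply D ⟨ν, hν⟩] at h1
    exact h1
  · intro h ν hx
    have h1 := h ν.1 ν.2 hx
    rw [ext_apply] at h1
    exact h1

/-- Restriction to the prime divisors. -/
noncomputable def toF (D : DVal L → ℤ) (hD : IsDiv P D) : P →₀ ℤ :=
  Finsupp.ofSupportFinite (fun ν : P => D ν.1) (by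
    refine Set.Finite.of_finite_image (f := Subtype.val) (hD.subset ?_)
      Subtype.val_injective.injOn
    rintro _ ⟨ν, hν, rfl⟩
    exact ⟨ν.2, hν⟩)

theorem toF_apply (D : DVal L → ℤ) (hD : IsDiv P D) (ν : P) : toF D hD ν = D ν.1 := rfl

theorem ext_toF (D : DVal L → ℤ) (hD : IsDiv P D) {ν : DVal L} (hν : ν ∈ P) :
    ext (toF D hD) ν = D ν := by
  rw [ext_apply _ ⟨ν, hν⟩]
  rfl

end

namespace PreSurf

variable (S : PreSurf L)

/-- The class map on finitely supported functions. -/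
noncomputable def clF : (S.prm →₀ ℤ) →+ (Fin (S.n + 1) → ℤ) :=
  AddMonoidHom.mk' (fun D => S.cl (ext D)) (by
    intro D D'
    have h1 : clOf S.prm S.cls (ext (D + D')) =
        clOf S.prm S.cls (fun ν => ext D ν + ext D' ν) := by
      refine clOf_congr fun ν hν => ?_
      have h2 := ext_apply (D + D') ⟨ν, hν⟩
      have h3 := ext_apply D ⟨ν, hν⟩
      have h4 := ext_apply D' ⟨ν, hν⟩
      rw [h2, h3, h4]
      rfl
    change clOf S.prm S.cls (ext (D + D')) = clOf S.prm S.cls (ext D) + clOf S.prm S.cls (ext D')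
    rw [h1, clOf_add (isDiv_ext D) (isDiv_ext D')])

theorem clF_apply (D : S.prm →₀ ℤ) : S.clF D = S.cl (ext D) := rfl

theorem ext_single (ν : S.prm) {μ : DVal L} (hμ : μ ∈ S.prm) :
    ext (Finsupp.single ν (1 : ℤ)) μ = prd ν.1 μ := by
  classical
  rw [ext_apply _ ⟨μ, hμ⟩, Finsupp.single_apply]
  by_cases h : μ = ν.1
  · subst h
    rw [prd_self, if_pos rfl]
  · rw [prd_ne h, if_neg]
    rintro rfl
    exact h rfl

theorem clF_single (ν : S.prm) : S.clF (Finsupp.single ν 1) = S.cls ν.1 := by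
  rw [clF_apply]
  change clOf _ _ _ = _
  rw [clOf_congr (D' := prd ν.1) fun μ hμ => S.ext_single ν hμ, clOf_prd ν.2]

theorem clF_toF (D : DVal L → ℤ) (hD : IsDiv S.prm D) : S.clF (toF D hD) = S.cl D :=
  clOf_congr fun _ hν => ext_toF D hD hν

end PreSurf

/-- The intersection form as a bilinear map. -/
noncomputable def frmL (n : ℕ) : (Fin (n + 1) → ℤ) →ₗ[ℤ] (Fin (n + 1) → ℤ) →ₗ[ℤ] ℤ :=
  LinearMap.mk₂ ℤ frm frm_add_left (fun k u v => by rw [frm_smul_left, smul_eq_mul])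
    frm_add_right (fun k u v => by rw [frm_smul_right, smul_eq_mul])

theorem frmL_apply (n : ℕ) (u v : Fin (n + 1) → ℤ) : frmL n u v = frm u v := rfl

end Pool.Agent.LibKB
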