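import Pool.Agent.LibKB.R13

/-! [KB R16] Separation of two points `z`, `y` over `x`.

Proof. `Over x z`: `Coord x a b`, `Coord z a (b / a)`; `Over x y`: `Coord x a' b'`, `Coord y a' (b' / a')`.
`Coord.over_ne`: `c ≠ 0`, `Ge E 2 (b - c • a' - d • b')`. `S.jet`: `f1, f2 ∈ sec DA` with
`Ge E 2 (f1 * g - 1)` (`z := 1`) and `Ge E 2 (f2 * g - b)`. The section is `f1 * f2 / u`: `E.ord (f1 * g) = 0`,
`E.ord (f2 * g) = 1` (`ord_add_of_ge`), so `BA.sec_mem` applies. At `z` (order function `F`):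
`f2 * g / a = b / a + (f2 * g - b) / a`, both terms have `F`-order `≥ 1` (`IsOrd.ord_b hF h'`,
`ge_div_pow`), so `F.ord (f1 * g * (f2 * g) / a) ≥ 1`: not a generator. At `y` (order function `F'`):
`f2 * g / a' = c + d • (b' / a') + w / a'`, `w := f2 * g - c • a' - d • b'`, `Ge E 2 w`, so
`f2 * g / a' = c + (terms of F'-order ≥ 1)`, and `F'.ord (f2 * g / a') = 0` because `c ≠ 0`
(`ord_add_of_ge`); `F'.ord (f1 * g) = 0` (unit of `x`). `BA.gen_over` for both points. -/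

set_option autoImplicit false

open Pool.Agent.LibGMM Pool.Agent.LibK

namespace Pool.Agent.LibKB

variable {L : Type} [Field L] [Algebra ℂ L]

namespace PreSurf

variable {S : PreSurf L} {x y z : Subalgebra ℂ L} {E : DVal L} {D DA : DVal L → ℤ} {u g : L}

theorem sep_over_over (H : BA S x E D DA u g) (hx : x ∈ S.pts) (hE : IsOrd x E) (hz : Over x z)
    (hy : Over x y) (hne : z ≠ y) :
    ∃ f, Gen (S.bPrm E) y D f ∧ ¬ Gen (S.bPrm E) z D f := by
  obtain ⟨a, b, h, hz'⟩ := hz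
  obtain ⟨a', b', h', hy'⟩ := hy
  obtain ⟨c, d, hc, hcd⟩ := h.over_ne hz' h' hy' hE hne
  obtain ⟨F, hF⟩ := hz'.exists_ord
  obtain ⟨F', hF'⟩ := hy'.exists_ord
  obtain ⟨ha0, ha1, hax⟩ := hE.ord_a h
  obtain ⟨hb0, hb1, hbx⟩ := hE.ord_b h
  obtain ⟨ha0', ha1', hax'⟩ := hE.ord_a h'
  obtain ⟨hb0', hb1', hbx'⟩ := hE.ord_b h'
  obtain ⟨f1, hf1, h1⟩ := S.jet DA H.isDiv H.cl x hx E hE g H.loc 1 x.one_mem
  obtain ⟨f2, hf2, h2⟩ := S.jet DA H.isDiv H.cl x hx E hE g H.loc b hbx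
  have hPx := S.pt hx
  have hm1 : f1 * g ∈ x := hPx.germ_mem H.loc hf1
  have hm2 : f2 * g ∈ x := hPx.germ_mem H.loc hf2
  obtain ⟨hn1, ho1⟩ : f1 * g ≠ 0 ∧ E.ord (f1 * g) = 0 := by
    have := ord_add_of_ge E (f := 1) (g := f1 * g - 1) one_ne_zero
      (h1.mono (by rw [ord_one]; norm_num))
    rwa [add_sub_cancel, ord_one] at this
  obtain ⟨hn2, ho2⟩ : f2 * g ≠ 0 ∧ E.ord (f2 * g) = 1 := by
    have := ord_add_of_ge E (f := b) (g := f2 * g - b) hb0 (h2.mono (by rw [hb1]; norm_num))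
    rwa [add_sub_cancel, hb1] at this
  have hf10 : f1 ≠ 0 := left_ne_zero_of_mul hn1
  have hf20 : f2 ≠ 0 := left_ne_zero_of_mul hn2
  have hsec : f1 * f2 / u ∈ sec (S.bPrm E) D := by
    refine H.sec_mem hf1 hf2 fun _ => ?_
    rw [E.ord_mul _ _ hn1 hn2, ho1, ho2]
    norm_num
  have hf12 : f1 * f2 ≠ 0 := mul_ne_zero hf10 hf20
  have hinv : (f1 * g)⁻¹ ∈ x := hE.inv_mem hm1 hn1 ho1
  refine ⟨f1 * f2 / u, ?_, ?_⟩
  · rw [H.gen_over hx hE h' hy' hF' hsec hf12, mul_div_assoc,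
      F'.ord_mul _ _ hn1 (div_ne_zero hn2 ha0'),
      ord_eq_zero_of_unit hm1 hn1 hinv ((h'.over_le hy').trans hF'.le_ring), zero_add]
    set w : L := f2 * g - c • a' - d • b' with hw
    have hwx : w ∈ x := x.sub_mem (x.sub_mem hm2 (x.smul_mem hax' c)) (x.smul_mem hbx' d)
    have hwE : Ge E 2 w := by
      have h3 : w = (f2 * g - b) + (b - c • a' - d • b') := by rw [hw]; abel
      rw [h3]
      exact h2.add hcd
    have hwF : Ge F' 1 (w / a') := by
      have h3 := ge_div_pow h' hy' hE hF' 1 1 hwx (hwE.mono (by norm_num))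
      rw [pow_one] at h3
      exact_mod_cast h3
    obtain ⟨hba0, hba1, _⟩ := hF'.ord_b hy'
    have hbF : Ge F' 1 (d • (b' / a')) := Ge.smul d fun _ => hba1.ge
    have hcc : algebraMap ℂ L c ≠ 0 := fun h0 =>
      hc ((map_eq_zero (algebraMap ℂ L)).mp h0)
    have he : f2 * g / a' = algebraMap ℂ L c + (d • (b' / a') + w / a') := by
      rw [hw, Algebra.smul_def, Algebra.smul_def, Algebra.smul_def]
      field_simp
      ring
    have h4 := (ord_add_of_ge F' hcc (g := d • (b' / a') + w / a')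
      ((hbF.add hwF).mono (by rw [F'.ord_const, zero_add]))).2
    rw [he, h4, F'.ord_const]
  · rw [H.gen_over hx hE h hz' hF hsec hf12, mul_div_assoc,
      F.ord_mul _ _ hn1 (div_ne_zero hn2 ha0),
      ord_eq_zero_of_unit hm1 hn1 hinv ((h.over_le hz').trans hF.le_ring), zero_add]
    have hwF : Ge F 1 ((f2 * g - b) / a) := by
      have h3 := ge_div_pow h hz' hE hF 1 1 (x.sub_mem hm2 hbx) (h2.mono (by norm_num))
      rw [pow_one] at h3
      exact_mod_cast h3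
    obtain ⟨hba0, hba1, _⟩ := hF.ord_b hz'
    have hbF : Ge F 1 (b / a) := fun _ => hba1.ge
    have he : f2 * g / a = b / a + (f2 * g - b) / a := by ring
    have h4 := (hbF.add hwF) (by rw [← he]; exact div_ne_zero hn2 ha0)
    rw [← he] at h4
    omega

end PreSurf

end Pool.Agent.LibKB
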