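import Pool.Agent.LibKB.R07
import Pool.Agent.LibKB.R06

/-! [KB R21] Divisors of class `k bA + (F, j)` on the blow-up.

Proof. `bcl`, `bA = sn (2 • A) (-1)`, `smul_sn`, `sn_add`, `sn_inj`: `S.cl D = k • 2 • A + F` and
`D E - S.mul x E D = - k + j = - m`. With `m + l = 2 k`: `S.cl D = m • A + (l • A + F)`.
`DA := S.rep S.A`, `DT := S.rep (l • S.A + F)`, `PreSurf.exists_decomp` with `k := m` gives `u`; `g` from
`Pt.exists_loc`, `mul_eq`. -/

set_option autoImplicit false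

open Pool.Agent.LibGMM Pool.Agent.LibK

namespace Pool.Agent.LibKB

variable {L : Type} [Field L] [Algebra ℂ L]

namespace PreSurf

/-- `D` is a divisor on the blow-up: `D = m DA + DT + div u` on `S.prm`, `g` is a local equation of
`D` at `x` and `D E = mult_x D - m`. -/
structure BM (S : PreSurf L) (x : Subalgebra ℂ L) (E : DVal L) (D DA DT : DVal L → ℤ) (m : ℕ)
    (u g : L) : Prop where
  isDiv : IsDiv S.prm D
  isDivA : IsDiv S.prm DA
  clA : S.cl DA = S.A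
  isDivT : IsDiv S.prm DT
  u0 : u ≠ 0
  eq : ∀ ν ∈ S.prm, D ν = m * DA ν + DT ν + ν.ord u
  loc : LocEqn S.prm x D g
  ex : D E = E.ord g - m

variable {S : PreSurf L} {x : Subalgebra ℂ L} {E : DVal L} {D : DVal L → ℤ}

theorem exists_BM (hx : x ∈ S.pts) (hE : IsOrd x E) (hD : IsDiv (S.bPrm E) D) (k m l : ℕ)
    (F : Fin (S.n + 1) → ℤ) (j : ℤ) (hm : (m : ℤ) = k - j) (hl : (l : ℤ) = k + j)
    (h : clOf (S.bPrm E) (S.bCls x E) D = k • S.bA + sn F j) :
    S.cl D = (2 * k) • S.A + F ∧ ∃ DA DT u g, BM S x E D DA DT m u g ∧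
      S.cl DT = l • S.A + F := by
  have hD' : IsDiv S.prm D := isDiv_bPrm.1 hD
  rw [bcl hx hE hD', bA, ← natCast_zsmul, smul_sn, sn_add] at h
  obtain ⟨h1, h2⟩ := sn_inj h
  refine ⟨?_, ?_⟩
  · rw [h1]
    funext i
    have h5 : ((2 * k) • S.A) i = 2 * (k : ℤ) * S.A i := by
      rw [Pi.smul_apply, nsmul_eq_mul]
      push_cast
      ring
    rw [Pi.add_apply, Pi.add_apply, h5, Pi.smul_apply, Pi.smul_apply, smul_eq_mul, smul_eq_mul]
    ring
  · have h3 : S.cl D = (m : ℤ) • S.cl (S.rep S.A) + S.cl (S.rep (l • S.A + F)) := by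
      rw [S.cl_rep, S.cl_rep, h1]
      funext i
      have h5 : (l • S.A) i = (l : ℤ) * S.A i := by
        rw [Pi.smul_apply, nsmul_eq_mul]
      rw [Pi.add_apply, Pi.add_apply, Pi.add_apply, h5, Pi.smul_apply, Pi.smul_apply,
        Pi.smul_apply, smul_eq_mul, smul_eq_mul, smul_eq_mul, hl, hm]
      ring
    obtain ⟨u, hu, hu'⟩ := exists_decomp (m : ℤ) hD' (S.isDiv_rep _) (S.isDiv_rep _) h3
    obtain ⟨g, hg⟩ := (S.pt hx).exists_loc hD'
    refine ⟨S.rep S.A, S.rep (l • S.A + F), u, g,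
      ⟨hD', S.isDiv_rep _, S.cl_rep _, S.isDiv_rep _, hu, hu', hg, ?_⟩, S.cl_rep _⟩
    rw [mul_eq hx hE hg] at h2
    linarith

end PreSurf

end Pool.Agent.LibKB
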