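import Pool.Agent.LibKB.R07

/-! [KB R12] Division by the equation `a` of the exceptional curve at a point `y` over `x`.

`div_pow_mem`: `Coord.mem_iff h'`; for `ν ∈ Ess y` use `Coord.ess_over`: either `ν = E`, where
`E.ord (z / a ^ k) = E.ord z - k ≥ 0` (`IsOrd.ord_a`; `z = 0` is trivial), or `ν ∈ Ess x` (so
`0 ≤ ν.ord z`, `Coord.mem_iff h`) and `ν.ord a = 0` (`Coord.over_ord_a`).
`ge_div_pow`: `z / a ^ k = a ^ l * (z / a ^ (k + l))`, the second factor is in `y ≤ F.ring`, and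
`F.ord a = 1` (`IsOrd.ord_a hF h'`).
`unit_div`: `z / a = 1 + (z - a) / a` and `Ge F 1 ((z - a) / a)` by `ge_div_pow` with `k = l = 1`;
`ord_add_of_ge` with `f := 1`. `const_of_mem`: `IsOrd.exists_jet` with `m = 1`: `P = C c`. -/

set_option autoImplicit false

open Pool.Agent.LibGMM Pool.Agent.LibK

namespace Pool.Agent.LibKB

variable {L : Type} [Field L] [Algebra ℂ L]

variable {x y : Subalgebra ℂ L} {E F : DVal L} {a b z : L}

theorem div_pow_mem (h : Coord x a b) (h' : Coord y a (b / a)) (hE : IsOrd x E) (k : ℕ)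
    (hz : z ∈ x) (hk : Ge E k z) : z / a ^ k ∈ y := by
  rw [h'.mem_iff]
  intro ν hν
  by_cases h0 : z = 0
  · rw [h0, zero_div, ν.ord_zero]
  obtain ⟨ha0, ha1, _⟩ := hE.ord_a h
  rcases (h.ess_over h' hE ν).1 hν with h1 | ⟨h1, h2⟩
  · rw [h1, ord_div E h0 (pow_ne_zero _ ha0), ord_pow E ha0, ha1]
    have := hk h0
    omega
  · rw [ord_div ν h0 (pow_ne_zero _ ha0), ord_pow ν ha0, h.over_ord_a h' h1 h2]
    have := (h.mem_iff z).1 hz ν h1
    omega

theorem ge_div_pow (h : Coord x a b) (h' : Coord y a (b / a)) (hE : IsOrd x E) (hF : IsOrd y F)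
    (k l : ℕ) (hz : z ∈ x) (hk : Ge E ((k : ℤ) + l) z) : Ge F l (z / a ^ k) := by
  intro h0
  obtain ⟨ha0, ha1, _⟩ := hF.ord_a h'
  have h1 : z / a ^ (k + l) ∈ y := div_pow_mem h h' hE (k + l) hz (by push_cast; exact hk)
  have h2 : z / a ^ k = a ^ l * (z / a ^ (k + l)) := by
    rw [pow_add]
    field_simp
  have h3 : z / a ^ (k + l) ≠ 0 := by
    intro h4
    rw [h4, mul_zero] at h2
    exact h0 h2
  have h4 : 0 ≤ F.ord (z / a ^ (k + l)) := hF.le_ring h1
  rw [h2, F.ord_mul _ _ (pow_ne_zero _ ha0) h3, ord_pow F ha0, ha1]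
  omega

theorem unit_div (h : Coord x a b) (h' : Coord y a (b / a)) (hE : IsOrd x E) (hF : IsOrd y F)
    (hz : z ∈ x) (hk : Ge E 2 (z - a)) : z ≠ 0 ∧ z / a ∈ y ∧ F.ord (z / a) = 0 := by
  obtain ⟨ha0, ha1, ha2⟩ := hE.ord_a h
  have h1 : Ge F (1 : ℕ) ((z - a) / a ^ 1) :=
    ge_div_pow h h' hE hF 1 1 (x.sub_mem hz ha2) (by
      intro h0
      have := hk h0
      push_cast
      omega)
  rw [pow_one] at h1
  have h2 := ord_add_of_ge F (f := (1 : L)) (g := (z - a) / a) one_ne_zero (by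
    rw [ord_one]
    intro h0
    have := h1 h0
    push_cast at this
    omega)
  have h3 : (1 : L) + (z - a) / a = z / a := by
    field_simp
    ring
  rw [h3, ord_one] at h2
  have h4 : z ≠ 0 := by
    rintro rfl
    exact h2.1 (zero_div _)
  refine ⟨h4, ?_, h2.2⟩
  have h5 : Ge E (1 : ℕ) z := by
    have h6 : Ge E 1 (a + (z - a)) := Ge.add (fun _ => by omega) (hk.mono (by norm_num))
    rw [add_sub_cancel] at h6
    exact_mod_cast h6
  have h7 := div_pow_mem h h' hE 1 hz h5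
  rwa [pow_one] at h7

theorem const_of_mem (hF : IsOrd y F) (hz : z ∈ y) : ∃ c : ℂ, Ge F 1 (z - algebraMap ℂ L c) := by
  obtain ⟨a, b, h, _⟩ := id hF
  obtain ⟨P, hP, h1⟩ := hF.exists_jet h 1 hz
  have h2 : P = MvPolynomial.C (P.coeff 0) := by
    ext d
    rw [MvPolynomial.coeff_C]
    split_ifs with h3
    · rw [h3]
    · by_contra h4
      have h5 := hP d (MvPolynomial.mem_support_iff.2 h4)
      have h6 : d.degree = 0 := by omega
      exact h3 ((Finsupp.degree_eq_zero_iff d).1 h6).symm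
  refine ⟨P.coeff 0, ?_⟩
  rw [h2] at h1
  rw [MvPolynomial.aeval_C] at h1
  exact_mod_cast h1

/-- An element of order zero is a constant `c ≠ 0` modulo the maximal ideal. -/
theorem const_of_unit (hF : IsOrd y F) (hz : z ∈ y) (h0 : z ≠ 0) (h : F.ord z = 0) :
    ∃ c : ℂ, c ≠ 0 ∧ Ge F 1 (z - algebraMap ℂ L c) := by
  obtain ⟨c, hc⟩ := const_of_mem hF hz
  refine ⟨c, ?_, hc⟩
  rintro rfl
  rw [map_zero, sub_zero] at hc
  have := hc h0
  omega

end Pool.Agent.LibKB
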