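import Pool.Agent.LibKB.R21
import Pool.Agent.LibKB.R12

/-! [KB R23] Base point freeness of `k bA + F'` on the blow-up.

`bpf_old`: `s ∈ sec DA` with `Gen y s`, `¬ Gen x s` (`S.sep`), `t` with `Gen y DT t`, the section is
`f = s ^ m * t / u`. `f ∈ sec S.prm D` (orders: `ν f + D ν = m (ν s + DA ν) + (ν t + DT ν) ≥ 0`).
`Ge E m (f * g)`: with local equations `g1`, `g2` of `DA`, `DT` at `x`, `g / (g1 ^ m * g2 * u)` is a unit of
`x`, `E.ord (s * g1) ≥ 1` (`Pt.pos_of_not_gen`), `E.ord (t * g2) ≥ 0`. So `f ∈ sec (S.bPrm E) D`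
(`mem_sec_b`, `BM.ex`). At `ν ∈ S.bPrm E` through `y`: `ν ≠ E` (`not_through`), `ν f + D ν = 0`.
`bpf_over`: `Over x y`: `⟨a, b, h, h'⟩`; `s ∈ sec DA` with `Ge E 2 (s * g1 - a)` (`S.jet`), `Gen x DT t`,
`f = s ^ m * t / u`: `E.ord (s * g1) = 1`, `E.ord (t * g2) = 0`, so `E.ord (f * g) = m`,
`E.ord f + D E = 0`. At `ν ∈ S.prm` with `y ≤ ν.ring` (`x ≤ y`, `ν ∈ Ess x`): `ν.ord a = 0`
(`Coord.over_ord_a`), `s * g1 / a` has order `0` at the order function `F` of `y` (`unit_div`), so its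
inverse is in `y` (`IsOrd.inv_mem`) and `ν.ord (s * g1 / a) = 0` (`ord_eq_zero_of_unit`); so
`ν.ord s = - DA ν`; `ν.ord t = - DT ν` (`Gen x`, `x ≤ ν.ring`). Hence `ν f + D ν = 0`. -/

set_option autoImplicit false

open Pool.Agent.LibGMM Pool.Agent.LibK

namespace Pool.Agent.LibKB

variable {L : Type} [Field L] [Algebra ℂ L]

namespace PreSurf

variable {S : PreSurf L} {x y : Subalgebra ℂ L} {E : DVal L} {D DA DT : DVal L → ℤ} {m : ℕ}
  {u g t : L}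

/-- The order of `s ^ m * t / u`. -/
private theorem ordF (ν : DVal L) {s t u : L} (hs : s ≠ 0) (ht : t ≠ 0) (hu : u ≠ 0) (m : ℕ) :
    ν.ord (s ^ m * t / u) = m * ν.ord s + ν.ord t - ν.ord u := by
  rw [ord_div ν (mul_ne_zero (pow_ne_zero _ hs) ht) hu, ν.ord_mul _ _ (pow_ne_zero _ hs) ht,
    ord_pow ν hs]

/-- At a prime divisor of the surface. -/
private theorem eqF (H : BM S x E D DA DT m u g) {s t : L} (hs : s ≠ 0) (ht : t ≠ 0)
    {ν : DVal L} (hν : ν ∈ S.prm) :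
    ν.ord (s ^ m * t / u) + D ν = m * (ν.ord s + DA ν) + (ν.ord t + DT ν) := by
  rw [ordF ν hs ht H.u0, H.eq ν hν]
  ring

/-- The section belongs to `D` on the surface. -/
private theorem secF (H : BM S x E D DA DT m u g) {s t : L} (hs0 : s ≠ 0) (ht0 : t ≠ 0)
    (hs : s ∈ sec S.prm DA) (ht : t ∈ sec S.prm DT) : s ^ m * t / u ∈ sec S.prm D := by
  intro ν hν _
  rw [eqF H hs0 ht0 hν]
  have h1 := hs ν hν hs0
  have h2 := ht ν hν ht0
  have h3 : 0 ≤ (m : ℤ) * (ν.ord s + DA ν) := mul_nonneg (by positivity) h1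
  omega

/-- The order along the exceptional curve. -/
private theorem ordE (H : BM S x E D DA DT m u g) (hx : x ∈ S.pts) (hE : IsOrd x E)
    {s t g1 g2 : L} (hs0 : s ≠ 0) (ht0 : t ≠ 0) (h1 : LocEqn S.prm x DA g1)
    (h2 : LocEqn S.prm x DT g2) :
    E.ord (s ^ m * t / u) + E.ord g = m * E.ord (s * g1) + E.ord (t * g2) := by
  have h3 : LocEqn S.prm x D (g1 ^ m * g2 * u) := by
    refine ⟨mul_ne_zero (mul_ne_zero (pow_ne_zero _ h1.1) h2.1) H.u0, fun ν hν hxν => ?_⟩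
    rw [ν.ord_mul _ _ (mul_ne_zero (pow_ne_zero _ h1.1) h2.1) H.u0,
      ν.ord_mul _ _ (pow_ne_zero _ h1.1) h2.1, ord_pow ν h1.1, h1.2 ν hν hxν, h2.2 ν hν hxν,
      H.eq ν hν]
  have h4 := (S.pt hx).loc_unique hE.le_ring H.loc h3
  rw [h4, ordF E hs0 ht0 H.u0, E.ord_mul _ _ (mul_ne_zero (pow_ne_zero _ h1.1) h2.1) H.u0,
    E.ord_mul _ _ (pow_ne_zero _ h1.1) h2.1, ord_pow E h1.1, E.ord_mul _ _ hs0 h1.1,
    E.ord_mul _ _ ht0 h2.1]
  ring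

theorem bpf_old (H : BM S x E D DA DT m u g) (hx : x ∈ S.pts) (hE : IsOrd x E)
    (hy : y ∈ S.pts) (hyx : y ≠ x) (ht : Gen S.prm y DT t) : ∃ f, Gen (S.bPrm E) y D f := by
  obtain ⟨s, hs, hsx⟩ := S.sep DA H.isDivA H.clA x hx y hy (Ne.symm hyx)
  obtain ⟨g1, hg1⟩ := (S.pt hx).exists_loc H.isDivA
  obtain ⟨g2, hg2⟩ := (S.pt hx).exists_loc H.isDivT
  have hs0 := hs.2.1
  have ht0 := ht.2.1
  have hf0 : s ^ m * t / u ≠ 0 := div_ne_zero (mul_ne_zero (pow_ne_zero _ hs0) ht0) H.u0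
  refine ⟨s ^ m * t / u, ?_, hf0, ?_⟩
  · rw [mem_sec_b H.loc]
    refine ⟨secF H hs0 ht0 hs.1 ht.1, fun _ => ?_⟩
    rw [E.ord_mul _ _ hf0 H.loc.1, ordE H hx hE hs0 ht0 hg1 hg2, H.ex]
    have h1 : 1 ≤ E.ord (s * g1) :=
      (S.pt hx).pos_of_not_gen hE hg1 hs.1 hsx (mul_ne_zero hs0 hg1.1)
    have h2 : 0 ≤ E.ord (t * g2) := hE.le_ring ((S.pt hx).germ_mem hg2 ht.1)
    have h3 : (m : ℤ) * 1 ≤ m * E.ord (s * g1) := mul_le_mul_of_nonneg_left h1 (by positivity)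
    omega
  · intro ν hν hyν
    rcases hν with rfl | hν
    · exact absurd hyν (not_through hx hE hy hyx)
    · rw [eqF H hs0 ht0 hν, hs.2.2 ν hν hyν, ht.2.2 ν hν hyν]
      ring

theorem bpf_over (H : BM S x E D DA DT m u g) (hx : x ∈ S.pts) (hE : IsOrd x E)
    (hy : Over x y) (ht : Gen S.prm x DT t) : ∃ f, Gen (S.bPrm E) y D f := by
  obtain ⟨a, b, h, h'⟩ := hy
  obtain ⟨g1, hg1⟩ := (S.pt hx).exists_loc H.isDivA
  obtain ⟨g2, hg2⟩ := (S.pt hx).exists_loc H.isDivT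
  obtain ⟨ha0, haE, hax⟩ := hE.ord_a h
  obtain ⟨s, hs, hsa⟩ := S.jet DA H.isDivA H.clA x hx E hE g1 hg1 a hax
  have hsg : s * g1 ≠ 0 ∧ E.ord (s * g1) = 1 := by
    have h1 := ord_add_of_ge E (f := a) (g := s * g1 - a) ha0 (by rw [haE]; exact hsa)
    rw [add_sub_cancel] at h1
    exact ⟨h1.1, by rw [h1.2, haE]⟩
  have hs0 : s ≠ 0 := left_ne_zero_of_mul hsg.1
  have ht0 := ht.2.1
  have hf0 : s ^ m * t / u ≠ 0 := div_ne_zero (mul_ne_zero (pow_ne_zero _ hs0) ht0) H.u0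
  have htg : E.ord (t * g2) = 0 := (S.pt hx).ord_zero_of_gen hg2 ht hE.le_ring
  have hord := ordE H hx hE hs0 ht0 hg1 hg2
  rw [hsg.2, htg] at hord
  refine ⟨s ^ m * t / u, ?_, hf0, ?_⟩
  · rw [mem_sec_b H.loc]
    refine ⟨secF H hs0 ht0 hs ht.1, fun _ => ?_⟩
    rw [E.ord_mul _ _ hf0 H.loc.1, hord, H.ex]
    omega
  · intro ν hν hyν
    rcases hν with rfl | hν
    · rw [H.ex]
      omega
    · have hxy : x ≤ y := Coord.over_le h h'
      have hxν : x ≤ ν.ring := le_trans hxy hyν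
      have hess : ν ∈ Ess x := ((S.pt hx).ess ν).2 ⟨hν, hxν⟩
      have hνa : ν.ord a = 0 := Coord.over_ord_a h h' hess hyν
      obtain ⟨F, hF⟩ := h'.exists_ord
      obtain ⟨hz, hzy, hzF⟩ := unit_div h h' hE hF ((S.pt hx).germ_mem hg1 hs) hsa
      have hq : s * g1 / a ≠ 0 := div_ne_zero hz ha0
      have hunit := ord_eq_zero_of_unit hzy hq (hF.inv_mem hzy hq hzF) hyν
      rw [ord_div ν hz ha0, hνa, ν.ord_mul _ _ hs0 hg1.1, hg1.2 ν hν hxν] at hunit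
      have ht1 := ht.2.2 ν hν hxν
      rw [eqF H hs0 ht0 hν, ht1]
      have h5 : ν.ord s + DA ν = 0 := by omega
      rw [h5]
      ring

end PreSurf

end Pool.Agent.LibKB
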