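import Pool.Agent.LibKB.R11
import Pool.Agent.LibKB.R10
import Pool.Agent.LibKB.R14
import Pool.Agent.LibKB.R15
import Pool.Agent.LibKB.R16
import Pool.Agent.LibKB.R18
import Pool.Agent.LibKB.R19
import Pool.Agent.LibKB.R22
import Pool.Agent.LibKB.R23

/-!
THEOREM K, part B1b: the blow-up of a closed point of a `PreSurf` is a `PreSurf`.
-/

set_option autoImplicit false

open Pool.Agent.LibGMM Pool.Agent.LibK

namespace Pool.Agent.LibKB

variable {L : Type} [Field L] [Algebra ℂ L]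

namespace PreSurf

section

variable {S : PreSurf L} {x y : Subalgebra ℂ L} {E : DVal L}

theorem bPtsNe (S : PreSurf L) {x : Subalgebra ℂ L} (hx : x ∈ S.pts) : (S.bPts x).Nonempty := by
  obtain ⟨a, b, h⟩ := S.coord x hx
  obtain ⟨y, hy⟩ := h.infinite_over.nonempty
  exact ⟨y, Or.inr hy⟩

theorem bSep (hx : x ∈ S.pts) (hE : IsOrd x E) (D : DVal L → ℤ) (hD : IsDiv (S.bPrm E) D)
    (h : clOf (S.bPrm E) (S.bCls x E) D = S.bA) (z : Subalgebra ℂ L) (hz : z ∈ S.bPts x)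
    (y : Subalgebra ℂ L) (hy : y ∈ S.bPts x) (hne : z ≠ y) :
    ∃ f, Gen (S.bPrm E) y D f ∧ ¬ Gen (S.bPrm E) z D f := by
  obtain ⟨DA, u, g, H⟩ := exists_BA hx hE hD h
  rcases hz with ⟨hz, hzx⟩ | hz <;> rcases hy with ⟨hy, hyx⟩ | hy
  · exact sep_old_old H hx hE hz hzx hy hyx hne
  · exact sep_old_over H hx hE hz hzx hy
  · exact sep_over_old H hx hE hz hy hyx
  · exact sep_over_over H hx hE hz hy hne

theorem bJet (hx : x ∈ S.pts) (hE : IsOrd x E) (D : DVal L → ℤ) (hD : IsDiv (S.bPrm E) D)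
    (h : clOf (S.bPrm E) (S.bCls x E) D = S.bA) (y : Subalgebra ℂ L) (hy : y ∈ S.bPts x)
    (F : DVal L) (hF : IsOrd y F) (G : L) (hG : LocEqn (S.bPrm E) y D G) (z : L) (hz : z ∈ y) :
    ∃ f ∈ sec (S.bPrm E) D, Ge F 2 (f * G - z) := by
  obtain ⟨DA, u, g, H⟩ := exists_BA hx hE hD h
  rcases hy with ⟨hy, hyx⟩ | hy
  · exact jet_old H hx hE hy hyx hF G hG z hz
  · exact jet_over H hx hE hy hF G hG z hz

theorem bSerre (hx : x ∈ S.pts) (hE : IsOrd x E) (F' : Fin (S.n + 1 + 1) → ℤ) :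
    ∃ k0 : ℕ, ∀ k : ℕ, k0 ≤ k → ∀ D, IsDiv (S.bPrm E) D →
      clOf (S.bPrm E) (S.bCls x E) D = k • S.bA + F' →
      2 * (h0 (S.bPrm E) D : ℤ) = 2 + frm (clOf (S.bPrm E) (S.bCls x E) D)
        (clOf (S.bPrm E) (S.bCls x E) D - Kc (S.n + 1)) ∧
      (∀ D', IsDiv (S.bPrm E) D' → clOf (S.bPrm E) (S.bCls x E) D' =
        Kc (S.n + 1) - clOf (S.bPrm E) (S.bCls x E) D → h0 (S.bPrm E) D' = 0) ∧
      ∀ y ∈ S.bPts x, ∃ f, Gen (S.bPrm E) y D f := by
  obtain ⟨F, j, rfl⟩ := exists_sn F'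
  obtain ⟨k1, hk1⟩ := bSerre1 hx hE (sn F j)
  obtain ⟨k2, hk2⟩ := S.serre F
  refine ⟨k1 + k2 + j.natAbs, fun k hk D hD hcl => ?_⟩
  obtain ⟨h1, h2⟩ := hk1 k (by omega) D hD hcl
  refine ⟨h1, h2, fun y hy => ?_⟩
  have hm : (((k - j).toNat : ℕ) : ℤ) = k - j := by omega
  have hl : (((k + j).toNat : ℕ) : ℤ) = k + j := by omega
  obtain ⟨_, DA, DT, u, g, H, hDT⟩ := exists_BM hx hE hD k _ _ F j hm hl hcl
  have h3 := (hk2 ((k + j).toNat) (by omega) DT H.isDivT hDT).2.2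
  rcases hy with ⟨hy, hyx⟩ | hy
  · obtain ⟨t, ht⟩ := h3 y hy
    exact bpf_old H hx hE hy hyx ht
  · obtain ⟨t, ht⟩ := h3 x hx
    exact bpf_over H hx hE hy ht

end

/-- The blow-up of the closed point `x`, with exceptional curve `E`. -/
noncomputable def blow (S : PreSurf L) (x : Subalgebra ℂ L) (hx : x ∈ S.pts) (E : DVal L)
    (hE : IsOrd x E) : PreSurf L where
  prm := S.bPrm E
  pts := S.bPts x
  n := S.n + 1
  cls := S.bCls x E
  A := S.bA
  ptsNe := S.bPtsNe hx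
  coord := fun _ hy => (bPt hx hE hy).coord
  ess := fun _ hy => (bPt hx hE hy).ess
  finDiv := bFinDiv
  centre := bCentre hx hE
  infPts := bInfPts hx hE
  cl_div := bClDiv hx hE
  ex_div := bExDiv hx hE
  cl_surj := bSurj hx hE
  finSec := bFinSec
  rr := bRR hx hE
  deg_nonneg := bDeg hx hE
  canon := bCanon hx hE
  A_sq := bASq
  sep := bSep hx hE
  jet := bJet hx hE
  serre := bSerre hx hE

end PreSurf

end Pool.Agent.LibKB
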