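import Pool.Agent.LibKB.Api

/-!
THEOREM K, part B1b: the data of the blow-up of the closed point `x` of `S`; `E` is the order
function of `x`.
-/

set_option autoImplicit false

open Pool.Agent.LibGMM Pool.Agent.LibK

namespace Pool.Agent.LibKB

variable {L : Type} [Field L] [Algebra ℂ L]

namespace PreSurf

section

variable (S : PreSurf L) (x : Subalgebra ℂ L) (E : DVal L)

/-- The multiplicity of the divisor `D` at `x` (`E` is the order function of `x`): the order of a
local equation. -/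
noncomputable def mul (D : DVal L → ℤ) : ℤ := by
  classical
  exact if h : ∃ g, LocEqn S.prm x D g then E.ord h.choose else 0

/-- The prime divisors of the blow-up. -/
def bPrm : Set (DVal L) := insert E S.prm

/-- The closed points of the blow-up. -/
def bPts : Set (Subalgebra ℂ L) := {y | (y ∈ S.pts ∧ y ≠ x) ∨ Over x y}

/-- The classes of the prime divisors of the blow-up. -/
noncomputable def bCls : DVal L → Fin (S.n + 1 + 1) → ℤ := by
  classical
  exact fun ν => if ν = E then sn 0 1 else sn (S.cls ν) (-(S.mul x E (prd ν)))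

/-- The very ample class `2 A - E` of the blow-up. -/
def bA : Fin (S.n + 1 + 1) → ℤ := sn ((2 : ℤ) • S.A) (-1)

end

variable {S : PreSurf L} {x y : Subalgebra ℂ L} {E : DVal L} {D D' : DVal L → ℤ} {g : L}

theorem mul_eq (hx : x ∈ S.pts) (hE : IsOrd x E) (hg : LocEqn S.prm x D g) :
    S.mul x E D = E.ord g := by
  classical
  have h : ∃ g, LocEqn S.prm x D g := ⟨g, hg⟩
  rw [mul, dif_pos h]
  exact (S.pt hx).loc_unique hE.le_ring h.choose_spec hg

theorem mul_congr (h : ∀ ν ∈ S.prm, D ν = D' ν) : S.mul x E D = S.mul x E D' := by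
  have h1 : LocEqn S.prm x D = LocEqn S.prm x D' := by
    funext g
    exact propext ⟨fun h2 => h2.congr h, fun h2 => h2.congr fun ν hν => (h ν hν).symm⟩
  unfold mul
  rw [h1]

theorem mul_add (hx : x ∈ S.pts) (hE : IsOrd x E) (hD : IsDiv S.prm D) (hD' : IsDiv S.prm D') :
    S.mul x E (fun ν => D ν + D' ν) = S.mul x E D + S.mul x E D' := by
  obtain ⟨g, hg⟩ := (S.pt hx).exists_loc hD
  obtain ⟨g', hg'⟩ := (S.pt hx).exists_loc hD'
  rw [mul_eq hx hE hg, mul_eq hx hE hg', mul_eq hx hE (hg.add hg'), E.ord_mul _ _ hg.1 hg'.1]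

theorem mul_zsmul (hx : x ∈ S.pts) (hE : IsOrd x E) (k : ℤ) (hD : IsDiv S.prm D) :
    S.mul x E (fun ν => k * D ν) = k * S.mul x E D := by
  obtain ⟨g, hg⟩ := (S.pt hx).exists_loc hD
  rw [mul_eq hx hE hg, mul_eq hx hE (hg.zsmul k), ord_zpow E hg.1]

theorem mul_ord (hx : x ∈ S.pts) (hE : IsOrd x E) (hg : g ≠ 0) :
    S.mul x E (fun ν => ν.ord g) = E.ord g :=
  mul_eq hx hE (LocEqn.ord hg)

theorem notMem (hx : x ∈ S.pts) (hE : IsOrd x E) : E ∉ S.prm := fun h =>
  hE.notMem_ess ((S.ess x hx E).2 ⟨h, hE.le_ring⟩)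

theorem isDiv_bPrm : IsDiv (S.bPrm E) D ↔ IsDiv S.prm D := by
  constructor
  · intro h
    exact h.subset fun ν hν => ⟨Set.mem_insert_of_mem _ hν.1, hν.2⟩
  · intro h
    refine (h.union (Set.finite_singleton E)).subset ?_
    rintro ν ⟨h1, h2⟩
    rcases h1 with rfl | h1
    · exact Or.inr rfl
    · exact Or.inl ⟨h1, h2⟩

theorem bCls_E : S.bCls x E E = sn 0 1 := by simp [bCls]

theorem bCls_old (hx : x ∈ S.pts) (hE : IsOrd x E) {ν : DVal L} (hν : ν ∈ S.prm) :
    S.bCls x E ν = sn (S.cls ν) (-(S.mul x E (prd ν))) := by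
  have h : ν ≠ E := by
    rintro rfl
    exact notMem hx hE hν
  simp [bCls, h]

end PreSurf

end Pool.Agent.LibKB
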