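import Pool.Agent.LibK.Surf

/-!
THEOREM K, part B: the inductive object `PreSurf` (smooth projective rational surfaces with function
field `L`, given by prime divisors and closed points), closed under blow-ups of closed points.

Closed points are given by their local rings `x ⊆ L`; `Coord x a b` says that `x = ℂ[a, b]_(a, b)`.
Divisors are functions `D : DVal L → ℤ` with finite support on the set `prm` of prime divisors.
-/

set_option autoImplicit false

open Pool.Agent.LibGMM Pool.Agent.LibK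

namespace Pool.Agent.LibKB

section

variable {L : Type} [Field L] [Algebra ℂ L]

/-- Evaluation of polynomials in two variables at `a, b`. -/
noncomputable abbrev ev (a b : L) : MvPolynomial (Fin 2) ℂ →ₐ[ℂ] L := MvPolynomial.aeval ![a, b]

/-- The order at the origin of a polynomial in two variables. -/
noncomputable def ordP (f : MvPolynomial (Fin 2) ℂ) : ℕ :=
  (f : MvPowerSeries (Fin 2) ℂ).order.toNat

/-- `L = ℂ(a, b)` and `x = ℂ[a, b]_(a, b)`: the local ring of the plane with coordinates `a, b` at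
the origin. -/
structure Coord (x : Subalgebra ℂ L) (a b : L) : Prop where
  inj : ∀ f : MvPolynomial (Fin 2) ℂ, ev a b f = 0 → f = 0
  gen : ∀ z : L, ∃ f g : MvPolynomial (Fin 2) ℂ, g ≠ 0 ∧ z = ev a b f / ev a b g
  mem : ∀ z : L, z ∈ x ↔ ∃ f g : MvPolynomial (Fin 2) ℂ, MvPolynomial.constantCoeff g ≠ 0 ∧
    z = ev a b f / ev a b g

/-- The discrete valuations whose ring is a localisation of `x` (for a closed point `x`: the local
rings of the prime divisors through `x`). -/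
def Ess (x : Subalgebra ℂ L) : Set (DVal L) :=
  {ν | x ≤ ν.ring ∧ ∀ f, 0 ≤ ν.ord f → ∃ a ∈ x, ∃ b ∈ x, b ≠ 0 ∧ ν.ord b = 0 ∧ f = a / b}

/-- `E` is the order function of the local ring `x`: the exceptional curve of the blow-up. -/
def IsOrd (x : Subalgebra ℂ L) (E : DVal L) : Prop :=
  ∃ a b, Coord x a b ∧ ∀ f : MvPolynomial (Fin 2) ℂ, f ≠ 0 → E.ord (ev a b f) = ordP f

/-- `y` is a closed point over `x` on the blow-up of `x`. -/
def Over (x y : Subalgebra ℂ L) : Prop := ∃ a b, Coord x a b ∧ Coord y a (b / a)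

/-- The valuation ring `V` dominates the local ring `x`. -/
def VDom (x : Subalgebra ℂ L) (V : ValuationSubring L) : Prop :=
  (∀ f ∈ x, f ∈ V) ∧ ∀ f ∈ x, f⁻¹ ∉ x → f⁻¹ ∉ V ∨ f = 0

/-- `f` has order at least `k` (`f = 0` is allowed). -/
def Ge (E : DVal L) (k : ℤ) (f : L) : Prop := f ≠ 0 → k ≤ E.ord f

/-- `D` is a divisor: its support on the set of prime divisors `P` is finite. -/
def IsDiv (P : Set (DVal L)) (D : DVal L → ℤ) : Prop := {ν | ν ∈ P ∧ D ν ≠ 0}.Finite

/-- Sections of the divisor `D`. -/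
def sec (P : Set (DVal L)) (D : DVal L → ℤ) : Submodule ℂ L where
  carrier := {f | ∀ ν ∈ P, f ≠ 0 → 0 ≤ ν.ord f + D ν}
  zero_mem' := by
    intro ν _ h
    exact absurd rfl h
  add_mem' := by
    intro a b ha hb ν hν hab
    by_cases h0 : a = 0
    · subst h0
      simp only [zero_add] at hab ⊢
      exact hb ν hν hab
    by_cases h1 : b = 0
    · subst h1
      simp only [add_zero] at hab ⊢
      exact ha ν hν hab
    have h2 := ν.ord_add a b h0 h1 hab
    have h3 := ha ν hν h0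
    have h4 := hb ν hν h1
    rcases min_le_iff.1 h2 with h5 | h5 <;> omega
  smul_mem' := by
    intro c a ha ν hν hca
    have h0 : a ≠ 0 := by
      rintro rfl
      exact hca (smul_zero c)
    have h1 : algebraMap ℂ L c ≠ 0 := by
      intro h
      apply hca
      rw [Algebra.smul_def, h, zero_mul]
    have h2 := ha ν hν h0
    rw [Algebra.smul_def, ν.ord_mul _ _ h1 h0, ν.ord_const, zero_add]
    exact h2

theorem mem_sec {P : Set (DVal L)} {D : DVal L → ℤ} {f : L} :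
    f ∈ sec P D ↔ ∀ ν ∈ P, f ≠ 0 → 0 ≤ ν.ord f + D ν := Iff.rfl

/-- The section `f` of `D` does not vanish at `x`. -/
def Gen (P : Set (DVal L)) (x : Subalgebra ℂ L) (D : DVal L → ℤ) (f : L) : Prop :=
  f ∈ sec P D ∧ f ≠ 0 ∧ ∀ ν ∈ P, x ≤ ν.ring → ν.ord f + D ν = 0

/-- `g` is a local equation of `D` at `x`. -/
def LocEqn (P : Set (DVal L)) (x : Subalgebra ℂ L) (D : DVal L → ℤ) (g : L) : Prop :=
  g ≠ 0 ∧ ∀ ν ∈ P, x ≤ ν.ring → ν.ord g = D ν

/-- The intersection form of signature `(1, n)`. -/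
def frm {n : ℕ} (u v : Fin (n + 1) → ℤ) : ℤ := u 0 * v 0 - ∑ i : Fin n, u i.succ * v i.succ

/-- The canonical class. -/
def Kc (n : ℕ) : Fin (n + 1) → ℤ := Fin.cons (-3) fun _ => 1

/-- The class of a divisor. -/
noncomputable def clOf (P : Set (DVal L)) {n : ℕ} (cls : DVal L → Fin (n + 1) → ℤ)
    (D : DVal L → ℤ) : Fin (n + 1) → ℤ := ∑ᶠ ν ∈ P, D ν • cls ν

/-- The dimension of the space of sections. -/
noncomputable def h0 (P : Set (DVal L)) (D : DVal L → ℤ) : ℕ := Module.finrank ℂ (sec P D)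

end

/-- A smooth projective rational surface with function field `L`, obtained from the plane by
blow-ups of closed points. -/
structure PreSurf (L : Type) [Field L] [Algebra ℂ L] where
  /-- the prime divisors -/
  prm : Set (DVal L)
  /-- the local rings of the closed points -/
  pts : Set (Subalgebra ℂ L)
  /-- the number of blow-ups -/
  n : ℕ
  /-- the class of a prime divisor -/
  cls : DVal L → Fin (n + 1) → ℤ
  /-- a very ample class -/
  A : Fin (n + 1) → ℤ
  ptsNe : pts.Nonempty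
  coord : ∀ x ∈ pts, ∃ a b, Coord x a b
  ess : ∀ x ∈ pts, ∀ ν, ν ∈ Ess x ↔ ν ∈ prm ∧ x ≤ ν.ring
  finDiv : FinDiv prm
  centre : ∀ V : ValuationSubring L, (∀ c : ℂ, algebraMap ℂ L c ∈ V) → V ≠ ⊤ →
    (∃ x ∈ pts, VDom x V) ∨ ∃ ν ∈ prm, ∀ f, f ∈ V ↔ 0 ≤ ν.ord f
  infPts : ∀ ν ∈ prm, {x | x ∈ pts ∧ x ≤ ν.ring}.Infinite
  cl_div : ∀ f : L, f ≠ 0 → clOf prm cls (fun ν => ν.ord f) = 0
  ex_div : ∀ D, IsDiv prm D → clOf prm cls D = 0 → ∃ f : L, f ≠ 0 ∧ ∀ ν ∈ prm, ν.ord f = D ν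
  cl_surj : ∀ α, ∃ D, IsDiv prm D ∧ clOf prm cls D = α
  finSec : ∀ D, IsDiv prm D → Module.Finite ℂ (sec prm D)
  rr : ∀ D D', IsDiv prm D → IsDiv prm D' → clOf prm cls D' = Kc n - clOf prm cls D →
    2 + frm (clOf prm cls D) (clOf prm cls D - Kc n) ≤ 2 * ((h0 prm D : ℤ) + h0 prm D')
  deg_nonneg : ∀ ν ∈ prm, 0 ≤ cls ν 0
  canon : ∀ ω : TopForm L, ω ≠ 0 → IsDiv prm (fun ν => canOrd ν ω) ∧
    clOf prm cls (fun ν => canOrd ν ω) = Kc n
  A_sq : 1 ≤ frm A A
  /-- sections of `A` separate closed points -/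
  sep : ∀ D, IsDiv prm D → clOf prm cls D = A → ∀ x ∈ pts, ∀ y ∈ pts, x ≠ y →
    ∃ f, Gen prm y D f ∧ ¬ Gen prm x D f
  /-- sections of `A` generate `O_x / m_x ^ 2` -/
  jet : ∀ D, IsDiv prm D → clOf prm cls D = A → ∀ x ∈ pts, ∀ E, IsOrd x E → ∀ g,
    LocEqn prm x D g → ∀ z ∈ x, ∃ f ∈ sec prm D, Ge E 2 (f * g - z)
  /-- Serre vanishing and base point freeness of `k A + F`, `k` large -/
  serre : ∀ F, ∃ k0 : ℕ, ∀ k : ℕ, k0 ≤ k → ∀ D, IsDiv prm D → clOf prm cls D = k • A + F →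
    2 * (h0 prm D : ℤ) = 2 + frm (clOf prm cls D) (clOf prm cls D - Kc n) ∧
    (∀ D', IsDiv prm D' → clOf prm cls D' = Kc n - clOf prm cls D → h0 prm D' = 0) ∧
    ∀ x ∈ pts, ∃ f, Gen prm x D f

end Pool.Agent.LibKB
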