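import Pool.Agent.LibKB.Defs
import Pool.Agent.LibKB80.Ord
import Pool.Agent.LibKB1a.BR1
import Pool.Agent.LibKB1a.BR2
import Pool.Agent.LibKB1a.BR3
import Pool.Agent.LibKB1a.BR4
import Pool.Agent.LibKB1a.BR5
import Pool.Agent.LibKB1a.BR6

/-!
THEOREM K, part B1a: the local lemmas about the local ring `x = ℂ[a, b]_(a, b)` of a smooth point
and about its blow-up (statements used by part B1b).
-/

set_option autoImplicit false

open Pool.Agent.LibGMM Pool.Agent.LibK

namespace Pool.Agent.LibKB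

variable {L : Type} [Field L] [Algebra ℂ L]

/-- The elements of order at least `k`. -/
def geSub (E : DVal L) (k : ℤ) : Submodule ℂ L where
  carrier := {f | Ge E k f}
  zero_mem' := fun h => absurd rfl h
  add_mem' := by
    intro a b ha hb hab
    by_cases h0 : a = 0
    · subst h0
      simp only [zero_add] at hab ⊢
      exact hb hab
    by_cases h1 : b = 0
    · subst h1
      simp only [add_zero] at hab ⊢
      exact ha hab
    have h2 := E.ord_add a b h0 h1 hab
    have h3 := ha h0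
    have h4 := hb h1
    exact le_trans (le_min h3 h4) h2
  smul_mem' := by
    intro c a ha hca
    have h0 : a ≠ 0 := by
      rintro rfl
      exact hca (smul_zero c)
    have h1 : algebraMap ℂ L c ≠ 0 := by
      intro h
      apply hca
      rw [Algebra.smul_def, h, zero_mul]
    have h2 := ha h0
    rw [Algebra.smul_def, E.ord_mul _ _ h1 h0, E.ord_const, zero_add]
    exact h2

variable {x y y' : Subalgebra ℂ L} {a b a' b' : L} {E E' ν : DVal L}

/-! ### Unique factorisation -/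

theorem Coord.factorial (h : Coord x a b) (D : DVal L → ℤ)
    (hD : {ν | ν ∈ Ess x ∧ D ν ≠ 0}.Finite) : ∃ g : L, g ≠ 0 ∧ ∀ ν ∈ Ess x, ν.ord g = D ν :=
  LibKB1a.loc_factorial h D hD

theorem Coord.mem_iff (h : Coord x a b) (f : L) : f ∈ x ↔ ∀ ν ∈ Ess x, 0 ≤ ν.ord f :=
  LibKB1a.loc_mem_iff h f

/-! ### Jets -/

theorem IsOrd.exists_jet (hE : IsOrd x E) (h : Coord x a b) (m : ℕ) {z : L} (hz : z ∈ x) :
    ∃ P : MvPolynomial (Fin 2) ℂ, (∀ d ∈ P.support, d.degree < m) ∧
      Ge E m (z - ev a b P) :=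
  LibKB1a.loc_exists_jet hE h m hz

theorem IsOrd.jet_count (hE : IsOrd x E) (m : ℕ) (V : Submodule ℂ L) [Module.Finite ℂ V]
    (hV : ∀ z ∈ V, z ∈ x) :
    Module.finrank ℂ V ≤ Module.finrank ℂ (V ⊓ geSub E m : Submodule ℂ L) +
      m * (m + 1) / 2 :=
  LibKB1a.loc_jet_count hE m V (geSub E m) hV fun _ => Iff.rfl

theorem IsOrd.jet_count' (hE : IsOrd x E) (m : ℕ) (V : Submodule ℂ L) [Module.Finite ℂ V]
    (hV : ∀ z ∈ V, z ∈ x) (hs : ∀ z ∈ x, ∃ v ∈ V, Ge E m (v - z)) :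
    Module.finrank ℂ V = Module.finrank ℂ (V ⊓ geSub E m : Submodule ℂ L) +
      m * (m + 1) / 2 :=
  LibKB1a.loc_jet_count' hE m V (geSub E m) hV (fun _ => Iff.rfl) hs

/-! ### The points over `x` -/

theorem Coord.exists_over (h : Coord x a b) : ∃ y, Coord y a (b / a) :=
  LibKB1a.loc_exists_over h

theorem Coord.over_le (h : Coord x a b) (h' : Coord y a (b / a)) : x ≤ y :=
  LibKB1a.loc_over_le h h'

theorem Coord.ess_over (h : Coord x a b) (h' : Coord y a (b / a)) (hE : IsOrd x E) (ν : DVal L) :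
    ν ∈ Ess y ↔ ν = E ∨ (ν ∈ Ess x ∧ y ≤ ν.ring) :=
  LibKB1a.loc_ess_over h h' hE ν

theorem Coord.over_ord_a (h : Coord x a b) (h' : Coord y a (b / a)) (hν : ν ∈ Ess x)
    (hy : y ≤ ν.ring) : ν.ord a = 0 :=
  LibKB1a.loc_over_ord_a h h' hν hy

/-- Two points over `x` with different directions. -/
theorem Coord.over_ne (h : Coord x a b) (hy : Coord y a (b / a)) (h' : Coord x a' b')
    (hy' : Coord y' a' (b' / a')) (hE : IsOrd x E) (hne : y ≠ y') :
    ∃ c d : ℂ, c ≠ 0 ∧ Ge E 2 (b - c • a' - d • b') :=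
  LibKB1a.loc_over_ne h hy h' hy' hE hne

theorem Coord.dom_over (h : Coord x a b) (hE : IsOrd x E) (V : ValuationSubring L)
    (hV : VDom x V) : (∀ f, f ∈ V ↔ 0 ≤ E.ord f) ∨ ∃ y, Over x y ∧ VDom y V :=
  LibKB1a.loc_dom_over h hE V hV

theorem Coord.infinite_over (h : Coord x a b) : {y | Over x y}.Infinite :=
  LibKB1a.loc_infinite_over h

/-! ### Canonical divisors -/

theorem Coord.canOrd_ess (h : Coord x a b) (hE : IsOrd x E) (ω : TopForm L) (hω : ω ≠ 0) :
    ∃ w : L, w ≠ 0 ∧ (∀ ν ∈ Ess x, canOrd ν ω = ν.ord w) ∧ canOrd E ω = E.ord w + 1 :=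
  LibKB1a.loc_canOrd_ess h hE ω hω

end Pool.Agent.LibKB
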