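import Pool.Agent.LibKB.Blow0

/-! [KB R05] The class of a divisor on the blow-up: `cl' D = (cl D, D E - mult_x D)`.

Proof. `mul_sum`: `S.mul x E D = ∑ᶠ ν ∈ S.prm, D ν * S.mul x E (prd ν)`: write the finsum as a sum over
the finite set `s = {ν ∈ S.prm | D ν ≠ 0}` (`finsum_mem_eq_sum_of_subset`) and prove by
`Finset.induction_on` that for every finset `s`, `S.mul x E (fun μ => ∑ ν ∈ s, D ν * prd ν μ) =
∑ ν ∈ s, D ν * S.mul x E (prd ν)` (`mul_add`, `mul_zsmul`, `isDiv_prd`; `mul_ord` with `g = 1` for the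
empty sum); `mul_congr`. `bcl`: `clOf_insert (notMem hx hE)`, `bCls_E`, `clOf` on `S.prm` with `bCls_old`;
the class of the old part is `sn (S.cl D) (- ∑ᶠ ν ∈ S.prm, D ν * S.mul x E (prd ν))`: as finset sums
over `s` (`Finset.sum` commutes with `sn`: prove `∑ ν ∈ s, D ν • sn (u ν) (j ν) = sn (∑ ν ∈ s, D ν • u ν)
(∑ ν ∈ s, D ν * j ν)` by induction with `sn_add`, `smul_sn`). -/

set_option autoImplicit false

open Pool.Agent.LibGMM Pool.Agent.LibK

namespace Pool.Agent.LibKB

variable {L : Type} [Field L] [Algebra ℂ L]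

namespace PreSurf

variable {S : PreSurf L} {x : Subalgebra ℂ L} {E : DVal L} {D : DVal L → ℤ}

private noncomputable def R05_supp {P : Set (DVal L)} {D : DVal L → ℤ} (hD : IsDiv P D) :
    Finset (DVal L) :=
  Set.Finite.toFinset (show {ν | ν ∈ P ∧ D ν ≠ 0}.Finite from hD)

private theorem R05_mem {P : Set (DVal L)} {D : DVal L → ℤ} (hD : IsDiv P D) (ν : DVal L) :
    ν ∈ R05_supp hD ↔ ν ∈ P ∧ D ν ≠ 0 :=
  Set.Finite.mem_toFinset _

private theorem R05_isDiv (P : Set (DVal L)) (D : DVal L → ℤ) (s : Finset (DVal L)) :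
    IsDiv P (fun μ => ∑ ν ∈ s, D ν * prd ν μ) := by
  classical
  induction s using Finset.induction_on with
  | empty => simpa using (isDiv_zero (P := P))
  | insert a s ha ih =>
    have h1 : (fun μ => ∑ ν ∈ insert a s, D ν * prd ν μ) =
        fun μ => D a * prd a μ + ∑ ν ∈ s, D ν * prd ν μ := by
      funext μ
      rw [Finset.sum_insert ha]
    rw [h1]
    exact ((isDiv_prd a).zsmul (D a)).add ih

private theorem R05_mul (hx : x ∈ S.pts) (hE : IsOrd x E) (D : DVal L → ℤ)
    (s : Finset (DVal L)) :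
    S.mul x E (fun μ => ∑ ν ∈ s, D ν * prd ν μ) = ∑ ν ∈ s, D ν * S.mul x E (prd ν) := by
  classical
  induction s using Finset.induction_on with
  | empty =>
    have h1 : S.mul x E (fun ν => ν.ord (1 : L)) = E.ord (1 : L) := mul_ord hx hE one_ne_zero
    rw [ord_one] at h1
    rw [Finset.sum_empty, ← h1]
    exact mul_congr fun ν _ => by rw [Finset.sum_empty, ord_one]
  | insert a s ha ih =>
    have h1 : (fun μ => ∑ ν ∈ insert a s, D ν * prd ν μ) =
        fun μ => D a * prd a μ + ∑ ν ∈ s, D ν * prd ν μ := by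
      funext μ
      rw [Finset.sum_insert ha]
    rw [h1, mul_add hx hE ((isDiv_prd a).zsmul (D a)) (R05_isDiv _ D s),
      mul_zsmul hx hE (D a) (isDiv_prd a), ih, Finset.sum_insert ha]

private theorem R05_sum {P : Set (DVal L)} {M : Type} [AddCommGroup M] [Module ℤ M]
    (hD : IsDiv P D) (f : DVal L → M) :
    ∑ᶠ ν ∈ P, D ν • f ν = ∑ ν ∈ R05_supp hD, D ν • f ν := by
  apply finsum_mem_eq_sum_of_subset
  · rintro ν ⟨h1, h2⟩
    rw [Finset.mem_coe, R05_mem]
    refine ⟨h1, fun h3 => h2 ?_⟩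
    change D ν • f ν = 0
    rw [h3, zero_smul]
  · intro ν hν
    rw [Finset.mem_coe, R05_mem] at hν
    exact hν.1

private theorem R05_eq {P : Set (DVal L)} (hD : IsDiv P D) {μ : DVal L} (hμ : μ ∈ P) :
    D μ = ∑ ν ∈ R05_supp hD, D ν * prd ν μ := by
  classical
  by_cases h : D μ = 0
  · rw [h]
    symm
    apply Finset.sum_eq_zero
    intro ν hν
    rw [R05_mem] at hν
    have h1 : μ ≠ ν := by
      rintro rfl
      exact hν.2 h
    rw [prd_ne h1, mul_zero]
  · rw [Finset.sum_eq_single μ]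
    · rw [prd_self, mul_one]
    · intro ν _ h1
      rw [prd_ne (Ne.symm h1), mul_zero]
    · intro h1
      exact absurd ((R05_mem hD μ).2 ⟨hμ, h⟩) h1

theorem mul_sum (hx : x ∈ S.pts) (hE : IsOrd x E) (hD : IsDiv S.prm D) :
    S.mul x E D = ∑ᶠ ν ∈ S.prm, D ν * S.mul x E (prd ν) := by
  have h1 := R05_sum hD (fun ν => S.mul x E (prd ν))
  simp only [smul_eq_mul] at h1
  rw [h1, ← R05_mul hx hE D (R05_supp hD)]
  exact mul_congr fun ν hν => R05_eq hD hν

private theorem R05_sn {n : ℕ} (s : Finset (DVal L)) (u : DVal L → Fin (n + 1) → ℤ)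
    (j : DVal L → ℤ) :
    ∑ ν ∈ s, D ν • sn (u ν) (j ν) = sn (∑ ν ∈ s, D ν • u ν) (∑ ν ∈ s, D ν * j ν) := by
  classical
  induction s using Finset.induction_on with
  | empty =>
    rw [Finset.sum_empty, Finset.sum_empty, Finset.sum_empty]
    have h1 := smul_sn 0 (0 : Fin (n + 1) → ℤ) 0
    rw [zero_smul, zero_smul, zero_mul] at h1
    exact h1
  | insert a s ha ih =>
    rw [Finset.sum_insert ha, Finset.sum_insert ha, Finset.sum_insert ha, ih, smul_sn, sn_add]

theorem bcl (hx : x ∈ S.pts) (hE : IsOrd x E) (hD : IsDiv S.prm D) :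
    clOf (S.bPrm E) (S.bCls x E) D = sn (S.cl D) (D E - S.mul x E D) := by
  have h1 : clOf S.prm (S.bCls x E) D = sn (S.cl D) (- S.mul x E D) := by
    rw [mul_sum hx hE hD]
    have h2 := R05_sum hD (fun ν => S.mul x E (prd ν))
    simp only [smul_eq_mul] at h2
    rw [h2]
    unfold cl clOf
    rw [R05_sum hD, R05_sum hD]
    rw [Finset.sum_congr rfl (g := fun ν => D ν • sn (S.cls ν) (-(S.mul x E (prd ν))))
      (fun ν hν => by
        rw [R05_mem] at hν
        rw [bCls_old hx hE hν.1]), R05_sn]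
    congr 1
    rw [← Finset.sum_neg_distrib]
    exact Finset.sum_congr rfl fun ν _ => by ring
  change clOf (insert E S.prm) _ _ = _
  rw [clOf_insert (notMem hx hE) hD, bCls_E, h1, smul_sn, sn_add, smul_zero, zero_add, mul_one,
    sub_eq_add_neg]

end PreSurf

end Pool.Agent.LibKB
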