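import Pool.Agent.LibKB.R06

/-! [KB R11] The canonical divisor on the blow-up.

Proof. `S.canon ω hω`: finite support and class `Kc S.n` on `S.prm`. `Coord.canOrd_ess` gives `w` with
`canOrd ν ω = ν.ord w` for `ν ∈ Ess x`, so `LocEqn S.prm x (fun ν => canOrd ν ω) w` (`S.ess`), and
`canOrd E ω = E.ord w + 1`. `bcl`, `mul_eq`, `Kc_succ`, `isDiv_bPrm`. -/

set_option autoImplicit false

open Pool.Agent.LibGMM Pool.Agent.LibK

namespace Pool.Agent.LibKB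

variable {L : Type} [Field L] [Algebra ℂ L]

namespace PreSurf

variable {S : PreSurf L} {x : Subalgebra ℂ L} {E : DVal L}

theorem bCanon (hx : x ∈ S.pts) (hE : IsOrd x E) (ω : TopForm L) (hω : ω ≠ 0) :
    IsDiv (S.bPrm E) (fun ν => canOrd ν ω) ∧
      clOf (S.bPrm E) (S.bCls x E) (fun ν => canOrd ν ω) = Kc (S.n + 1) := by
  obtain ⟨h1, h2⟩ := S.canon ω hω
  refine ⟨isDiv_bPrm.2 h1, ?_⟩
  obtain ⟨a, b, hab⟩ := S.coord x hx
  obtain ⟨w, hw, hw1, hw2⟩ := hab.canOrd_ess hE ω hω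
  have h3 : LocEqn S.prm x (fun ν => canOrd ν ω) w :=
    ⟨hw, fun ν hν hxν => (hw1 ν ((S.ess x hx ν).2 ⟨hν, hxν⟩)).symm⟩
  have h4 : S.cl (fun ν => canOrd ν ω) = Kc S.n := h2
  rw [bcl hx hE h1, mul_eq hx hE h3, Kc_succ, h4]
  congr 1
  simp only [hw2]
  ring

end PreSurf

end Pool.Agent.LibKB
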